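import Pool.Agent.H876.Res.Chow

/-!
# Function fields and coverings by spectra of subrings of the function field
-/

set_option autoImplicit false

open AlgebraicGeometry CategoryTheory Limits
open Pool.Agent.N98.PJ

namespace Pool.Agent.H876.Res

/-- The field `K`, with its structure of an algebra over `O`, is the function field of the integral scheme
`X` over `O`. -/
def IsFunctionField (O K : Type) [CommRing O] [Field K] [Algebra O K] {X : Scheme.{0}}
    [IsIntegral X] (f : X ⟶ Spec (CommRingCat.of O)) : Prop :=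
  ∃ e : X.functionField ≃+* K,
    Spec.map (CommRingCat.ofHom e.toRingHom) ≫ X.fromSpecStalk (genericPoint X) ≫ f =
      Spec.map (CommRingCat.ofHom (algebraMap O K))

variable {O K : Type} [CommRing O] [Field K] [Algebra O K]

lemma IsFunctionField.equiv {L : Type} [Field L] [Algebra O L] {X : Scheme.{0}} [IsIntegral X]
    {f : X ⟶ Spec (CommRingCat.of O)} (h : IsFunctionField O K f) (e' : K ≃ₐ[O] L) :
    IsFunctionField O L f := by
  obtain ⟨e, he⟩ := h
  refine ⟨e.trans e'.toRingEquiv, ?_⟩
  have h1 : Spec.map (CommRingCat.ofHom (e.trans e'.toRingEquiv).toRingHom) =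
      Spec.map (CommRingCat.ofHom e'.toAlgHom.toRingHom) ≫
        Spec.map (CommRingCat.ofHom e.toRingHom) := by
    rw [← Spec.map_comp, ← CommRingCat.ofHom_comp]
    rfl
  rw [h1, Category.assoc, he, ← Spec.map_comp, ← CommRingCat.ofHom_comp]
  congr 2
  exact RingHom.ext fun x => e'.commutes x

section chart

variable {X : Scheme.{0}} [IsIntegral X] (e : X.functionField ≃+* K) (U : X.Opens) [Nonempty U]

/-- The sections over an open subset as elements of the function field. -/
noncomputable def toK : Γ(X, U) →+* K := e.toRingHom.comp (X.germToFunctionField U).hom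

lemma toK_injective : Function.Injective (toK e U) :=
  e.injective.comp (X.germToFunctionField_injective U)

lemma spec_toK (hU : IsAffineOpen U) : Spec.map (CommRingCat.ofHom (toK e U)) ≫ hU.fromSpec =
    Spec.map (CommRingCat.ofHom e.toRingHom) ≫ X.fromSpecStalk (genericPoint X) := by
  have h1 : CommRingCat.ofHom (toK e U) = X.germToFunctionField U ≫
      CommRingCat.ofHom e.toRingHom := rfl
  have h2 : genericPoint X ∈ U :=
    ((genericPoint_spec X).mem_open_set_iff U.isOpen).mpr (by simpa using ‹Nonempty U›)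
  rw [h1, Spec.map_comp, Category.assoc, ← hU.fromSpecStalk_eq_fromSpecStalk h2]
  rfl

end chart

/-- A morphism to the spectrum of `O` which is the given one at the generic point. -/
lemma spec_unique {A : Type} [CommRing A] [Algebra O A] (ι : A →+* K) (hι : Function.Injective ι)
    (hA : ∀ x, ι (algebraMap O A x) = algebraMap O K x) (g : Spec (.of A) ⟶ Spec (.of O))
    (h : Spec.map (CommRingCat.ofHom ι) ≫ g = Spec.map (CommRingCat.ofHom (algebraMap O K))) :
    g = Spec.map (CommRingCat.ofHom (algebraMap O A)) := by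
  obtain ⟨φ, rfl⟩ : ∃ φ, Spec.map φ = g := ⟨Spec.preimage g, Spec.map_preimage g⟩
  congr 1
  rw [← Spec.map_comp] at h
  have h1 := Spec.map_injective h
  ext x
  apply hι
  have h2 := congrArg (fun F => F.hom x) h1
  exact h2.trans (hA x).symm

/-- An integral scheme with the function field `K` is covered by spectra of subrings of `K`. -/
theorem exists_atlas {X : Scheme.{0}} [IsIntegral X] {f : X ⟶ Spec (CommRingCat.of O)}
    (h : IsFunctionField O K f) : Nonempty (Atlas O K f) := by
  obtain ⟨e, he⟩ := h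
  let Λ := {U : X.affineOpens // Nonempty U.1}
  have hne : ∀ α : Λ, Nonempty α.1.1 := fun α => α.2
  let φ : ∀ α : Λ, Γ(X, α.1.1) →+* K := fun α => toK e α.1.1
  have hφ : ∀ α, Function.Injective (φ α) := fun α => toK_injective e α.1.1
  let χ : Spec (.of K) ⟶ X := Spec.map (CommRingCat.ofHom e.toRingHom) ≫
    X.fromSpecStalk (genericPoint X)
  have hχ0 : ∀ α : Λ, Spec.map (CommRingCat.ofHom (φ α)) ≫ α.1.2.fromSpec = χ := fun α =>
    spec_toK e α.1.1 α.1.2
  have hχf : χ ≫ f = Spec.map (CommRingCat.ofHom (algebraMap O K)) := by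
    rw [← he]
    exact Category.assoc _ _ _
  -- the structure of an algebra
  have halg : ∀ (α : Λ) (r : O), algebraMap O K r ∈ (φ α).range := by
    intro α r
    obtain ⟨g, hg⟩ : ∃ g : CommRingCat.of O ⟶ CommRingCat.of Γ(X, α.1.1),
        Spec.map g = α.1.2.fromSpec ≫ f := ⟨Spec.preimage _, Spec.map_preimage _⟩
    refine ⟨g.hom r, ?_⟩
    have h1 : Spec.map (CommRingCat.ofHom (φ α)) ≫ Spec.map g =
        Spec.map (CommRingCat.ofHom (algebraMap O K)) := by
      rw [hg, ← Category.assoc, hχ0, hχf]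
    rw [← Spec.map_comp] at h1
    have h2 := Spec.map_injective h1
    exact congrArg (fun F => F.hom r) h2
  let A : Λ → Subalgebra O K := fun α => { (φ α).range with algebraMap_mem' := halg α }
  let ρ : ∀ α, Γ(X, α.1.1) →+* A α := fun α => (φ α).rangeRestrict
  have hρ : ∀ α, Function.Bijective (ρ α) := fun α =>
    ⟨fun x y hxy => hφ α (congrArg Subtype.val hxy), (φ α).rangeRestrict_surjective⟩
  have hiso : ∀ α, IsIso (Spec.map (CommRingCat.ofHom (ρ α))) := fun α => by
    have h1 : CommRingCat.ofHom (ρ α) =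
        (RingEquiv.ofBijective (ρ α) (hρ α)).toCommRingCatIso.hom := rfl
    rw [h1]
    infer_instance
  let c : ∀ α, Spec (.of (A α)) ⟶ X := fun α => Spec.map (CommRingCat.ofHom (ρ α)) ≫
    α.1.2.fromSpec
  have hc : ∀ α, Spec.map (CommRingCat.ofHom (A α).val.toRingHom) ≫ c α = χ := by
    intro α
    change Spec.map (CommRingCat.ofHom (A α).val.toRingHom) ≫ Spec.map (CommRingCat.ofHom (ρ α)) ≫
      α.1.2.fromSpec = χ
    rw [← Category.assoc, ← Spec.map_comp, ← CommRingCat.ofHom_comp]
    exact hχ0 α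
  refine ⟨{ Λ := Λ
            A := A
            c := c
            oi := fun α => ?_
            cov := fun x => ?_
            χ := χ
            hχ := hc
            hf := fun α => ?_
            frac := fun α z => ?_ }⟩
  · have := hiso α
    change IsOpenImmersion (Spec.map (CommRingCat.ofHom (ρ α)) ≫ α.1.2.fromSpec)
    infer_instance
  · obtain ⟨_, ⟨U, hU, rfl⟩, hxU, -⟩ :=
      X.isBasis_affineOpens.exists_subset_of_mem_open (Set.mem_univ x) isOpen_univ
    let α : Λ := ⟨⟨U, hU⟩, ⟨⟨x, hxU⟩⟩⟩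
    refine ⟨α, ?_⟩
    have h1 : x ∈ Set.range hU.fromSpec := by
      rw [hU.range_fromSpec]
      exact hxU
    obtain ⟨y, hy⟩ := h1
    have := hiso α
    obtain ⟨z, hz⟩ := (Spec.map (CommRingCat.ofHom (ρ α))).surjective y
    refine ⟨z, ?_⟩
    change (Spec.map (CommRingCat.ofHom (ρ α)) ≫ hU.fromSpec) z = x
    rw [Scheme.Hom.comp_apply, hz, hy]
  · refine spec_unique (O := O) (K := K) (A α).val.toRingHom Subtype.val_injective (fun x => rfl) _ ?_
    rw [← Category.assoc, hc, hχf]
  · have hfr := functionField_isFractionRing_of_isAffineOpen X α.1.1 α.1.2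
    obtain ⟨a, b, hb, hab⟩ := IsFractionRing.div_surjective (A := Γ(X, α.1.1)) (e.symm z)
    have hne' : φ α b ≠ 0 := fun h0 =>
      nonZeroDivisors.ne_zero hb (hφ α (h0.trans (map_zero _).symm))
    refine ⟨φ α a, ⟨a, rfl⟩, φ α b, ⟨b, rfl⟩, hne', ?_⟩
    have h1 := congrArg e hab
    rw [map_div₀, RingEquiv.apply_symm_apply] at h1
    exact h1.symm

/-- The restriction of an atlas. -/
def Atlas.restrict {X : Scheme.{0}} {f : X ⟶ Spec (CommRingCat.of O)} (D : Atlas O K f)
    {Λ' : Type} (g : Λ' → D.Λ) (hg : ∀ x, ∃ α, x ∈ Set.range (D.c (g α))) : Atlas O K f where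
  Λ := Λ'
  A α := D.A (g α)
  c α := D.c (g α)
  oi α := D.oi (g α)
  cov := hg
  χ := D.χ
  hχ α := D.hχ (g α)
  hf α := D.hf (g α)
  frac α := D.frac (g α)

/-- Finitely many charts suffice. -/
theorem exists_finite_atlas {X : Scheme.{0}} [IsIntegral X] {f : X ⟶ Spec (CommRingCat.of O)}
    (h : IsFunctionField O K f) [LocallyOfFiniteType f] [QuasiCompact f] :
    ∃ D : Atlas O K f, Finite D.Λ ∧ ∀ α, (D.A α).FG := by
  obtain ⟨D⟩ := exists_atlas h
  have hoi := D.oi
  have hc : CompactSpace X := by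
    have h1 := QuasiCompact.isCompact_preimage (f := f) Set.univ isOpen_univ
      CompactSpace.isCompact_univ
    rw [Set.preimage_univ] at h1
    exact ⟨h1⟩
  obtain ⟨T, hT⟩ := isCompact_univ.elim_finite_subcover (fun α => Set.range (D.c α))
    (fun α => (D.c α).isOpenEmbedding.isOpen_range) (by
      intro x _
      obtain ⟨α, hα⟩ := D.cov x
      exact Set.mem_iUnion.mpr ⟨α, hα⟩)
  refine ⟨D.restrict (Λ' := {α // α ∈ T}) Subtype.val fun x => ?_, ?_, ?_⟩
  · obtain ⟨α, hα⟩ := Set.mem_iUnion.mp (hT (Set.mem_univ x))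
    obtain ⟨h1, h2⟩ := Set.mem_iUnion.mp hα
    exact ⟨⟨α, h1⟩, h2⟩
  · change Finite {α // α ∈ T}
    infer_instance
  · rintro ⟨α, hα⟩
    change (D.A α).FG
    have h1 : LocallyOfFiniteType (D.c α ≫ f) := inferInstance
    rw [D.hf, HasRingHomProperty.Spec_iff (P := @LocallyOfFiniteType)] at h1
    have h2 : Algebra.FiniteType O (D.A α) := RingHom.finiteType_algebraMap.1 h1
    exact (D.A α).fg_iff_finiteType.mpr h2

/-- The function field of an integral scheme with a given chart. -/
theorem functionField_of_chart {Z : Scheme.{0}} [IsIntegral Z] {f : Z ⟶ Spec (CommRingCat.of O)}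
    (A : Subalgebra O K) (hA : ∀ z : K, ∃ a ∈ A, ∃ b ∈ A, b ≠ 0 ∧ z = a / b)
    (c : Spec (.of A) ⟶ Z) [IsOpenImmersion c]
    (hf : c ≫ f = Spec.map (CommRingCat.ofHom (algebraMap O A))) : IsFunctionField O K f := by
  have hne : Nonempty (Spec (.of A)) := inferInstance
  let U : Z.Opens := c.opensRange
  have hU : IsAffineOpen U := isAffineOpen_opensRange c
  have hUne : Nonempty U := ⟨⟨c (Classical.arbitrary _), ⟨_, rfl⟩⟩⟩
  obtain ⟨ψ, hψ⟩ : ∃ ψ : CommRingCat.of Γ(Z, U) ⟶ CommRingCat.of A, Spec.map ψ =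
      c.isoOpensRange.hom ≫ hU.isoSpec.hom := ⟨Spec.preimage _, Spec.map_preimage _⟩
  have hψiso : IsIso (Spec.map ψ) := by
    rw [hψ]
    infer_instance
  have hψ2 : Spec.map ψ ≫ hU.fromSpec = c := by
    rw [hψ, Category.assoc]
    have h1 : hU.isoSpec.hom ≫ hU.fromSpec = U.ι := by
      rw [IsAffineOpen.fromSpec, Iso.hom_inv_id_assoc]
    rw [h1]
    exact Scheme.Hom.isoOpensRange_hom_ι c
  have hiso : IsIso ψ := by
    have h1 : IsIso (Scheme.Spec.map ψ.op) := hψiso
    have h2 : IsIso ψ.op := isIso_of_fully_faithful Scheme.Spec ψ.op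
    exact isIso_of_op ψ
  let E : Γ(Z, U) ≃+* A := (asIso ψ).commRingCatIsoToRingEquiv
  let φ : Γ(Z, U) →+* K := A.val.toRingHom.comp E.toRingHom
  have hφ : Function.Injective φ := Subtype.val_injective.comp E.injective
  have hfr := functionField_isFractionRing_of_isAffineOpen Z U hU
  let F : Z.functionField →+* K := IsFractionRing.lift (A := Γ(Z, U)) hφ
  have hF : ∀ x, F (algebraMap Γ(Z, U) Z.functionField x) = φ x := fun x =>
    IsFractionRing.lift_algebraMap hφ x
  have hFb : Function.Bijective F := by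
    refine ⟨F.injective, fun z => ?_⟩
    obtain ⟨a, ha, b, hb, hb0, rfl⟩ := hA z
    refine ⟨algebraMap Γ(Z, U) Z.functionField (E.symm ⟨a, ha⟩) /
      algebraMap Γ(Z, U) Z.functionField (E.symm ⟨b, hb⟩), ?_⟩
    have h3 : ∀ x : A, φ (E.symm x) = x := fun x => by
      change ((E (E.symm x) : A) : K) = x
      rw [RingEquiv.apply_symm_apply]
    rw [map_div₀, hF, hF, h3, h3]
  let e : Z.functionField ≃+* K := RingEquiv.ofBijective F hFb
  have he : toK e U = φ := RingHom.ext hF
  refine ⟨e, ?_⟩
  have h4 := spec_toK e U hU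
  rw [he] at h4
  have h5 : Spec.map (CommRingCat.ofHom φ) = Spec.map (CommRingCat.ofHom A.val.toRingHom) ≫
      Spec.map ψ := by
    rw [← Spec.map_comp]
    rfl
  have h6 : Spec.map (CommRingCat.ofHom φ) ≫ hU.fromSpec =
      Spec.map (CommRingCat.ofHom A.val.toRingHom) ≫ c := by
    rw [h5, Category.assoc, hψ2]
  rw [← Category.assoc, ← h4, h6, Category.assoc, hf, ← Spec.map_comp, ← CommRingCat.ofHom_comp]
  rfl

end Pool.Agent.H876.Res
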