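import Pool.Graph.R_pool_sql_team_seeded_63374d34.N98.PJ.Glue

/-!
# Birational morphisms
-/

set_option autoImplicit false

open AlgebraicGeometry CategoryTheory Limits
open Pool.Agent.N98.PJ

universe u

namespace Pool.Agent.H876.Res

/-- The morphism has a section over a non-empty open subscheme which is an open immersion. -/
def Bir {Y X : Scheme.{u}} (π : Y ⟶ X) : Prop :=
  ∃ (W : Scheme.{u}) (_ : Nonempty W) (a : W ⟶ X) (b : W ⟶ Y),
    IsOpenImmersion a ∧ IsOpenImmersion b ∧ b ≫ π = a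

theorem Bir.exists_iso {Y X : Scheme.{u}} [IsIntegral Y] {π : Y ⟶ X} [IsSeparated π] (h : Bir π) :
    ∃ U : X.Opens, (U : Set X).Nonempty ∧ IsIso (π ∣_ U) := by
  obtain ⟨W, hW, a, b, ha, hb, hab⟩ := h
  have hiso : IsIso (pullback.snd π a) := isIso_snd π a b hab
  refine ⟨a.opensRange, ?_, isIso_restrict π a⟩
  exact ⟨_, Classical.arbitrary W, rfl⟩

theorem Bir.of_iso {Y X : Scheme.{u}} {π : Y ⟶ X} (U : X.Opens) (hU : (U : Set X).Nonempty)
    (h : IsIso (π ∣_ U)) : Bir π := by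
  have hne : Nonempty (π ⁻¹ᵁ U).toScheme := by
    have hsurj : Surjective (π ∣_ U) := inferInstance
    obtain ⟨y, -⟩ := hsurj.surj ⟨hU.some, hU.some_mem⟩
    exact ⟨y⟩
  refine ⟨(π ⁻¹ᵁ U).toScheme, hne, (π ∣_ U) ≫ U.ι, (π ⁻¹ᵁ U).ι, inferInstance, inferInstance, ?_⟩
  exact (morphismRestrict_ι π U).symm

theorem Bir.comp {Y Z X : Scheme.{u}} [IrreducibleSpace Z] {π : Y ⟶ Z} {q : Z ⟶ X} (h1 : Bir π)
    (h2 : Bir q) : Bir (π ≫ q) := by
  obtain ⟨W₁, hW₁, a₁, b₁, ha₁, hb₁, h1⟩ := h1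
  obtain ⟨W₂, hW₂, a₂, b₂, ha₂, hb₂, h2⟩ := h2
  have hne : Nonempty (pullback a₁ b₂ : Scheme.{u}) := by
    obtain ⟨x, ⟨y, hy⟩, ⟨z, hz⟩⟩ := nonempty_preirreducible_inter
      a₁.isOpenEmbedding.isOpen_range b₂.isOpenEmbedding.isOpen_range
      ⟨_, Classical.arbitrary W₁, rfl⟩ ⟨_, Classical.arbitrary W₂, rfl⟩
    obtain ⟨w, -, -⟩ := Scheme.Pullback.exists_preimage_pullback y z (hy.trans hz.symm)
    exact ⟨w⟩
  refine ⟨pullback a₁ b₂, hne, pullback.snd a₁ b₂ ≫ a₂, pullback.fst a₁ b₂ ≫ b₁, inferInstance,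
    inferInstance, ?_⟩
  rw [Category.assoc, reassoc_of% h1, pullback.condition_assoc, h2]

theorem Bir.restrict {Y Z : Scheme.{u}} [IrreducibleSpace Z] {π : Y ⟶ Z} (h : Bir π) (V : Z.Opens)
    (hV : (V : Set Z).Nonempty) : Bir (π ∣_ V) := by
  obtain ⟨W, hW, a, b, ha, hb, h⟩ := h
  have hne : Nonempty (pullback a V.ι : Scheme.{u}) := by
    obtain ⟨x, ⟨y, hy⟩, hx⟩ := nonempty_preirreducible_inter
      a.isOpenEmbedding.isOpen_range V.isOpen ⟨_, Classical.arbitrary W, rfl⟩ hV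
    obtain ⟨w, -, -⟩ := Scheme.Pullback.exists_preimage_pullback (f := a) (g := V.ι) y ⟨x, hx⟩ hy
    exact ⟨w⟩
  have hr : Set.range (pullback.fst a V.ι ≫ b) ⊆ Set.range (π ⁻¹ᵁ V).ι := by
    rintro _ ⟨w, rfl⟩
    have h1 : (pullback.fst a V.ι ≫ b) ≫ π = pullback.snd a V.ι ≫ V.ι := by
      rw [Category.assoc, h, pullback.condition]
    rw [Scheme.Opens.range_ι]
    change π ((pullback.fst a V.ι ≫ b) w) ∈ V
    rw [← Scheme.Hom.comp_apply, h1, Scheme.Hom.comp_apply]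
    exact (pullback.snd a V.ι w).2
  let b' := IsOpenImmersion.lift (π ⁻¹ᵁ V).ι (pullback.fst a V.ι ≫ b) hr
  have hb' : b' ≫ (π ⁻¹ᵁ V).ι = pullback.fst a V.ι ≫ b := IsOpenImmersion.lift_fac _ _ _
  refine ⟨pullback a V.ι, hne, pullback.snd a V.ι, b', inferInstance, ?_, ?_⟩
  · have : IsOpenImmersion (b' ≫ (π ⁻¹ᵁ V).ι) := by rw [hb']; infer_instance
    exact IsOpenImmersion.of_comp b' (π ⁻¹ᵁ V).ι
  · rw [← cancel_mono V.ι, Category.assoc, morphismRestrict_ι, reassoc_of% hb', h,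
      pullback.condition]

/-- An open immersion into a separated integral scheme over the base which is proper over the base is an
isomorphism. -/
theorem isIso_of_proper {P Q S : Scheme.{u}} [IsIntegral Q] (σ : P ⟶ Q) [IsOpenImmersion σ]
    [Nonempty P] (g : Q ⟶ S) [IsSeparated g] (h : IsProper (σ ≫ g)) : IsIso σ := by
  have hp : IsProper σ := IsProper.of_comp σ g
  have hsurj : Surjective σ := by
    refine ⟨?_⟩
    rw [← Set.range_eq_univ]
    have hclopen : IsClopen (Set.range σ) :=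
      ⟨σ.isClosedMap.isClosed_range, σ.isOpenEmbedding.isOpen_range⟩
    exact hclopen.eq_univ ⟨_, Classical.arbitrary P, rfl⟩
  exact (isIso_iff_isOpenImmersion_and_surjective σ).2 ⟨inferInstance, hsurj⟩

/-- Gluing of morphisms which agree at the generic point. -/
theorem glue_charts {Y X S : Scheme.{u}} [IsIntegral Y] (g : Y ⟶ S) (f : X ⟶ S) [IsSeparated f]
    {Λ : Type u} (P : Λ → Scheme.{u}) (l : ∀ α, P α ⟶ Y) (hl : ∀ α, IsOpenImmersion (l α))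
    (hcov : ∀ y, ∃ α x, l α x = y) (φ : ∀ α, P α ⟶ X) (hφ : ∀ α, φ α ≫ f = l α ≫ g)
    {Q : Scheme.{u}} (χ : Q ⟶ Y) [hχ : IsDominant χ] (ζ : ∀ α, Q ⟶ P α)
    (hζ : ∀ α, ζ α ≫ l α = χ) (ξ : Q ⟶ X) (hξ : ∀ α, ζ α ≫ φ α = ξ) :
    ∃ π : Y ⟶ X, π ≫ f = g ∧ ∀ α, l α ≫ π = φ α :=
  exists_glue g f (Scheme.Cover.mkOfCovers Λ P l hcov hl) φ hφ χ ζ hζ ξ hξ

/-- Properness is local on the target. -/
theorem proper_charts {Y X : Scheme.{u}} (q : Y ⟶ X)
    {Λ : Type u} (P : Λ → Scheme.{u}) (l : ∀ α, P α ⟶ X) (hl : ∀ α, IsOpenImmersion (l α))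
    (hcov : ∀ y, ∃ α x, l α x = y) (h : ∀ α, IsProper (pullback.snd q (l α))) : IsProper q :=
  IsZariskiLocalAtTarget.of_openCover (P := @IsProper) (Scheme.Cover.mkOfCovers Λ P l hcov hl) h

end Pool.Agent.H876.Res
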