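import Pool.Graph.R_seed8.H968R2.Quad.Model
import Pool.Graph.R_pool_sql_team_seeded_63374d34.N98.PJ.Glue
import Pool.Graph.R_pool_sql_team_seeded_63374d34.N98.PJ.Pt

/-!
# Closures in products of projective lines

For a finite family `t` of nonzero elements of a field `K`, the closure of the point with the coordinates
`t` in the product of projective lines is covered by the spectra of the rings generated by the elements
`t i`, `i ∉ S`, and their inverses, `i ∈ S`.
-/

set_option autoImplicit false

open AlgebraicGeometry CategoryTheory Limits HomogeneousLocalization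
open Pool.Agent.H968R2.Quad Pool.Agent.N98.PJ

namespace Pool.Agent.H876.Res

/-- The span of the products of some of the elements `t i`: the homogeneous coordinates of the point `t`
of the product of projective lines, in the Segre embedding. -/
def boxSpan (O : Type) {K I : Type} [CommRing O] [Field K] [Algebra O K] [Fintype I] (t : I → K) :
    Submodule O K :=
  Submodule.span O (Set.range fun S : Finset I => ∏ i ∈ S, t i)

/-- The scheme over `O` which is the closure of the point with the coordinates `t i` in the product of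
projective lines, in its Segre embedding. -/
noncomputable def closureP1 (O : Type) {K I : Type} [CommRing O] [Field K] [Algebra O K] [Fintype I]
    (t : I → K) : Scheme.{0} :=
  model (boxSpan O t)

/-- The structure morphism. -/
noncomputable def closureMap (O : Type) {K I : Type} [CommRing O] [Field K] [Algebra O K]
    [Fintype I] (t : I → K) : closureP1 O t ⟶ Spec (CommRingCat.of O) :=
  modelMap (boxSpan O t)

section spec

lemma isDominant_spec' {R K : Type} [CommRing R] [Field K] (f : R →+* K)
    (hf : Function.Injective f) : IsDominant (Spec.map (CommRingCat.ofHom f)) := by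
  refine ⟨?_⟩
  have h1 : DenseRange (PrimeSpectrum.comap f) := by
    rw [PrimeSpectrum.denseRange_comap_iff_ker_le_nilRadical, (RingHom.injective_iff_ker_eq_bot f).1 hf]
    exact bot_le
  exact h1

/-- Factorization through an injective homomorphism. -/
lemma factor_inj {R B L : Type} [CommRing R] [CommRing B] [CommRing L] (ι : B →+* L)
    (hι : Function.Injective ι) (g : R →+* L) (h : ∀ z, ∃ y, ι y = g z) :
    ∃ ψ : R →+* B, ι.comp ψ = g := by
  choose y hy using h
  refine ⟨{ toFun := y, map_one' := ?_, map_mul' := ?_, map_zero' := ?_, map_add' := ?_ },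
    RingHom.ext hy⟩
  · apply hι
    rw [hy, map_one, map_one]
  · intro a b
    apply hι
    rw [hy, map_mul, map_mul, hy, hy]
  · apply hι
    rw [hy, map_zero, map_zero]
  · intro a b
    apply hι
    rw [hy, map_add, map_add, hy, hy]

end spec

section model

variable {O K : Type} [CommRing O] [Field K] [Algebra O K] (M : Submodule O K)

lemma psi_av (a : K) (ha : a ∈ M) (ha0 : a ≠ 0) (h : evalOne M (tElt M a ha) ≠ 0)
    (z : Away (mPiece M) (tElt M a ha)) :
    psi M a ha ha0 z = av (mPiece M) (evalOne M) (tElt M a ha) h z := rfl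

/-- The charts cover. -/
theorem cover_val {I : Type} (z : I → K) (hz : ∀ i, z i ∈ M)
    (hspan : M = Submodule.span O (Set.range z)) (hJ0 : ∀ j, z j ≠ 0)
    (hcv : ∀ V : ValuationSubring K, (∀ c : O, algebraMap O K c ∈ V) →
      ∃ j, ∀ i, z i / z j ∈ V) (y : model M) :
    ∃ j, y ∈ (modelChart M (z j) (hz j)).opensRange := by
  classical
  obtain ⟨a, ha, ha0, w, hw⟩ := exists_chart M y
  let P : Ideal (Away (mPiece M) (tElt M a ha)) := PrimeSpectrum.asIdeal w
  have hP : P.IsPrime := PrimeSpectrum.isPrime w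
  let φ := psi M a ha ha0
  have hφ : Function.Injective φ := psi_injective M a ha ha0
  have hunit : ∀ x : P.primeCompl, IsUnit (φ x) := by
    intro x
    apply IsUnit.mk0
    intro h
    have h0 : (x : Away (mPiece M) (tElt M a ha)) = 0 := (map_eq_zero_iff φ hφ).1 h
    exact x.2 (by rw [h0]; exact P.zero_mem)
  let f : Localization.AtPrime P →+* K := IsLocalization.lift (M := P.primeCompl)
    (S := Localization.AtPrime P) hunit
  obtain ⟨V, hVf, hloc⟩ := IsLocalRing.exists_factor_valuationRing f
  let α : Away (mPiece M) (tElt M a ha) →+* Localization.AtPrime P := algebraMap _ _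
  have hfφ : ∀ x : Away (mPiece M) (tElt M a ha), f (α x) = φ x :=
    fun x => IsLocalization.lift_eq (M := P.primeCompl) (S := Localization.AtPrime P) hunit x
  have hchV : ∀ x ∈ Algebra.adjoin O {y : K | ∃ m ∈ M, y = m / a}, x ∈ V := by
    intro x hx
    obtain ⟨u, rfl⟩ := (mem_range_psi M a ha ha0 x).2 hx
    rw [show psi M a ha ha0 u = φ u from rfl, ← hfφ]
    exact hVf _
  obtain ⟨s, hs⟩ := hcv V (fun c => hchV _ (Subalgebra.algebraMap_mem _ c))
  refine ⟨s, ?_⟩
  have hs0 : z s ≠ 0 := hJ0 s
  set t := Away.isLocalizationElem (tElt_mem M a ha) (tElt_mem M (z s) (hz s)) with ht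
  have hφt : φ t = z s / a := by
    rw [ht]
    change psi M a ha ha0 _ = _
    rw [psi_av M a ha ha0 (by rw [evalOne_tElt]; exact ha0)]
    unfold Away.isLocalizationElem
    rw [av_mk, pow_one, pow_one, evalOne_tElt, evalOne_tElt]
  have haV : a / z s ∈ V := by
    have h1 : a ∈ Submodule.span O (Set.range z) := hspan ▸ ha
    have h2 : ∀ b ∈ Submodule.span O (Set.range z), b / z s ∈ V := by
      intro b hb
      induction hb using Submodule.span_induction with
      | mem x hx =>
        obtain ⟨i, rfl⟩ := hx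
        exact hs i
      | zero => rw [zero_div]; exact V.zero_mem
      | add x y _ _ hx hy => rw [add_div]; exact V.add_mem _ _ hx hy
      | smul c x _ hx =>
        rw [Algebra.smul_def, mul_div_assoc]
        exact V.mul_mem _ _ (hchV _ (Subalgebra.algebraMap_mem _ c)) hx
    exact h2 a h1
  have htP : t ∉ P := by
    intro hmemt
    have hnu : ¬ IsUnit (α t) := by
      have := (IsLocalization.AtPrime.to_map_mem_maximal_iff (Localization.AtPrime P) P t).2
        hmemt
      exact (IsLocalRing.mem_maximalIdeal _).1 this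
    apply hnu
    apply hloc.1
    have hinv : (f (α t))⁻¹ ∈ V := by
      rw [hfφ, hφt, inv_div]
      exact haV
    have hne : f (α t) ≠ 0 := by
      rw [hfφ, hφt]
      exact div_ne_zero hs0 ha0
    refine IsUnit.of_mul_eq_one ⟨_, hinv⟩ ?_
    apply Subtype.ext
    change f (α t) * (f (α t))⁻¹ = 1
    exact mul_inv_cancel₀ hne
  have h5 := Proj.awayι_preimage_basicOpen (mPiece M) (f := tElt M a ha)
    (tElt_mem M a ha) one_pos (g := tElt M (z s) (hz s)) (tElt_mem M (z s) (hz s)) one_pos
  have h6 : w ∈ (Proj.awayι (mPiece M) (tElt M a ha) (tElt_mem M a ha) one_pos) ⁻¹ᵁ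
      Proj.basicOpen (mPiece M) (tElt M (z s) (hz s)) := by
    rw [h5]
    exact htP
  rw [modelChart_opensRange, ← hw]
  exact h6

/-- The structure morphism is proper. -/
lemma modelMap_proper (hM : M.FG) : IsProper (modelMap M) := by
  have := finiteType_zero M hM
  have h1 : IsProper (Proj.toSpecZero (mPiece M)) := inferInstance
  have hs : Function.Surjective (toZero M) := by
    intro z
    have h1 : (((z : mAlg M) : Polynomial K).coeff 0) ∈ M ^ 0 := (z : mAlg M).2 0
    rw [pow_zero] at h1
    obtain ⟨a, ha⟩ := Submodule.mem_one.1 h1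
    refine ⟨a, ?_⟩
    apply Subtype.ext
    refine Eq.trans ?_ (eq_mMon M z.2).symm
    apply Subtype.ext
    simp only [toZero, mMon, RingHom.coe_mk, MonoidHom.coe_mk, OneHom.coe_mk]
    rw [ha]
  have h3 : IsClosedImmersion (Spec.map (toZeroHom M)) := by
    refine IsClosedImmersion.spec_of_surjective _ ?_
    exact hs
  have h4 : IsProper (Spec.map (toZeroHom M)) := inferInstance
  unfold modelMap
  exact MorphismProperty.comp_mem @IsProper _ _ h1 h4

/-- The isomorphism of the chart. -/
noncomputable def chIso (a : K) (ha : a ∈ M) (ha0 : a ≠ 0) :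
    Spec (.of (Algebra.adjoin O {y : K | ∃ m ∈ M, y = m / a})) ⟶
      Spec (.of (Away (mPiece M) (tElt M a ha))) :=
  Spec.map (CommRingCat.ofHom (chartEquiv M a ha ha0 : Away (mPiece M) (tElt M a ha) →+*
    Algebra.adjoin O {y : K | ∃ m ∈ M, y = m / a}))

instance (a : K) (ha : a ∈ M) (ha0 : a ≠ 0) : IsIso (chIso M a ha ha0) := by
  have h1 : CommRingCat.ofHom (chartEquiv M a ha ha0 : Away (mPiece M) (tElt M a ha) →+*
      Algebra.adjoin O {y : K | ∃ m ∈ M, y = m / a}) =
      (chartEquiv M a ha ha0).toCommRingCatIso.hom := rfl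
  unfold chIso
  rw [h1]
  infer_instance

/-- The chart of the model. -/
noncomputable def chB (a : K) (ha : a ∈ M) (ha0 : a ≠ 0) :
    Spec (.of (Algebra.adjoin O {y : K | ∃ m ∈ M, y = m / a})) ⟶ model M :=
  chIso M a ha ha0 ≫ modelChart M a ha

instance (a : K) (ha : a ∈ M) (ha0 : a ≠ 0) : IsOpenImmersion (chB M a ha ha0) :=
  IsOpenImmersion.comp _ _

lemma chB_opensRange (a : K) (ha : a ∈ M) (ha0 : a ≠ 0) :
    (chB M a ha ha0).opensRange = (modelChart M a ha).opensRange :=
  Scheme.Hom.opensRange_comp_of_isIso _ _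

lemma chB_pt (a : K) (ha : a ∈ M) (ha0 : a ≠ 0) (h : evalOne M (tElt M a ha) ≠ 0) :
    Spec.map (CommRingCat.ofHom
      (Algebra.adjoin O {y : K | ∃ m ∈ M, y = m / a}).val.toRingHom) ≫ chB M a ha ha0 =
      pt (mPiece M) (evalOne M) (tElt_mem M a ha) one_pos h := by
  unfold chB pt chIso
  rw [← Category.assoc, ← Spec.map_comp, ← CommRingCat.ofHom_comp]
  rfl

lemma chB_modelMap (a : K) (ha : a ∈ M) (ha0 : a ≠ 0) :
    chB M a ha ha0 ≫ modelMap M =
      Spec.map (CommRingCat.ofHom
      (algebraMap O (Algebra.adjoin O {y : K | ∃ m ∈ M, y = m / a}))) := by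
  have key : (chIso M a ha ha0 ≫ Proj.awayι (mPiece M) (tElt M a ha) (tElt_mem M a ha) one_pos) ≫
      Proj.toSpecZero (mPiece M) ≫ Spec.map (toZeroHom M) =
      Spec.map (CommRingCat.ofHom
      (algebraMap O (Algebra.adjoin O {y : K | ∃ m ∈ M, y = m / a}))) := by
    unfold chIso
    rw [Category.assoc, Proj.awayι_toSpecZero_assoc, ← Spec.map_comp, ← Spec.map_comp]
    congr 1
    apply CommRingCat.hom_ext
    ext r
    change psi M a ha ha0 (fromZeroRingHom (mPiece M) _ (toZero M r)) = algebraMap O K r
    have h0 : evalOne M (tElt M a ha) ≠ 0 := by rw [evalOne_tElt]; exact ha0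
    rw [psi_av M a ha ha0 h0, av_fromZero]
    exact evalOne_mMon M 0 _ (by rw [pow_zero]; exact Submodule.mem_one.2 ⟨r, rfl⟩)
  exact key

end model

section box

variable {O K : Type} [CommRing O] [Field K] [Algebra O K]

/-- The ring generated by the elements `t i`, `i ∉ S`, and the inverses of the `t i`, `i ∈ S`. -/
def chA (O : Type) {K I : Type} [CommRing O] [Field K] [Algebra O K] (t : I → K)
    (S : Finset I) : Subalgebra O K :=
  Algebra.adjoin O {x : K | (∃ i ∈ S, x = (t i)⁻¹) ∨ ∃ i, i ∉ S ∧ x = t i}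

variable {I : Type} [Fintype I] (t : I → K)

lemma prod_mem_box (S : Finset I) : ∏ i ∈ S, t i ∈ boxSpan O t := Submodule.subset_span ⟨S, rfl⟩

omit [Fintype I] in
lemma prod_div_prod (ht : ∀ i, t i ≠ 0) (S T : Finset I) :
    (∏ i ∈ T, t i) / ∏ i ∈ S, t i ∈ chA O t S := by
  classical
  have h1 : ∏ i ∈ T, t i = (∏ i ∈ T \ S, t i) * ∏ i ∈ T ∩ S, t i := by
    rw [mul_comm]
    exact (Finset.prod_inter_mul_prod_sdiff T S t).symm
  have h2 : ∏ i ∈ S, t i = (∏ i ∈ S \ T, t i) * ∏ i ∈ T ∩ S, t i := by
    rw [Finset.inter_comm, mul_comm]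
    exact (Finset.prod_inter_mul_prod_sdiff S T t).symm
  rw [h1, h2, mul_div_mul_right _ _ (Finset.prod_ne_zero_iff.2 fun i _ => ht i), div_eq_mul_inv,
    ← Finset.prod_inv_distrib]
  refine Subalgebra.mul_mem _ (Subalgebra.prod_mem _ fun i hi => ?_)
    (Subalgebra.prod_mem _ fun i hi => ?_)
  · exact Algebra.subset_adjoin (Or.inr ⟨i, (Finset.mem_sdiff.mp hi).2, rfl⟩)
  · exact Algebra.subset_adjoin (Or.inl ⟨i, (Finset.mem_sdiff.mp hi).1, rfl⟩)

lemma adjoin_box (ht : ∀ i, t i ≠ 0) (S : Finset I) :
    Algebra.adjoin O {y : K | ∃ m ∈ boxSpan O t, y = m / ∏ i ∈ S, t i} = chA O t S := by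
  classical
  apply le_antisymm
  · rw [Algebra.adjoin_le_iff]
    rintro _ ⟨m, hm, rfl⟩
    change m / ∏ i ∈ S, t i ∈ chA O t S
    unfold boxSpan at hm
    induction hm using Submodule.span_induction with
    | mem x hx =>
      obtain ⟨T, rfl⟩ := hx
      exact prod_div_prod t ht S T
    | zero => rw [zero_div]; exact Subalgebra.zero_mem _
    | add x y _ _ hx hy => rw [add_div]; exact Subalgebra.add_mem _ hx hy
    | smul c x _ hx =>
      rw [Algebra.smul_def, mul_div_assoc]
      exact Subalgebra.mul_mem _ (Subalgebra.algebraMap_mem _ c) hx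
  · unfold chA
    rw [Algebra.adjoin_le_iff]
    have hS : ∏ i ∈ S, t i ≠ 0 := Finset.prod_ne_zero_iff.2 fun i _ => ht i
    rintro _ (⟨i, hi, rfl⟩ | ⟨i, hi, rfl⟩)
    · refine Algebra.subset_adjoin ⟨∏ j ∈ S.erase i, t j, prod_mem_box t _, ?_⟩
      rw [eq_div_iff hS, ← Finset.mul_prod_erase S t hi, inv_mul_cancel_left₀ (ht i)]
    · refine Algebra.subset_adjoin ⟨∏ j ∈ insert i S, t j, prod_mem_box t _, ?_⟩
      rw [eq_div_iff hS, Finset.prod_insert hi]

/-- A scheme over `O` which is the closure of the point with the coordinates `t`, given by its charts. -/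
structure Box (O : Type) {K I : Type} [CommRing O] [Field K] [Algebra O K] (t : I → K) where
  Z : Scheme.{0}
  int : IsIntegral Z
  g : Z ⟶ Spec (.of O)
  pr : IsProper g
  c : ∀ S : Finset I, Spec (.of (chA O t S)) ⟶ Z
  oi : ∀ S, IsOpenImmersion (c S)
  cov : ∀ y, ∃ S, y ∈ Set.range (c S)
  ξ : Spec (.of K) ⟶ Z
  hξ : ∀ S, Spec.map (CommRingCat.ofHom (chA O t S).val.toRingHom) ≫ c S = ξ
  hg : ∀ S, c S ≫ g = Spec.map (CommRingCat.ofHom (algebraMap O (chA O t S)))

omit [Fintype I] in
lemma prod_ne (ht : ∀ i, t i ≠ 0) (S : Finset I) : ∏ i ∈ S, t i ≠ 0 :=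
  Finset.prod_ne_zero_iff.2 fun i _ => ht i

/-- The inclusion of the chart ring. -/
noncomputable def incl (ht : ∀ i, t i ≠ 0) (S : Finset I) :
    Algebra.adjoin O {y : K | ∃ m ∈ boxSpan O t, y = m / ∏ i ∈ S, t i} ≃+* chA O t S :=
  RingEquiv.subringCongr (R := K) (s := Subalgebra.toSubring _) (t := Subalgebra.toSubring _)
    (congrArg Subalgebra.toSubring (adjoin_box t ht S))

/-- The chart. -/
noncomputable def boxC (ht : ∀ i, t i ≠ 0) (S : Finset I) :
    Spec (.of (chA O t S)) ⟶ model (boxSpan O t) :=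
  Spec.map (CommRingCat.ofHom (incl (O := O) t ht S).toRingHom) ≫
    chB (boxSpan O t) _ (prod_mem_box t S) (prod_ne t ht S)

lemma isIso_incl (ht : ∀ i, t i ≠ 0) (S : Finset I) :
    IsIso (Spec.map (CommRingCat.ofHom (incl (O := O) t ht S).toRingHom)) := by
  have h1 : CommRingCat.ofHom (incl (O := O) t ht S).toRingHom =
      (incl (O := O) t ht S).toCommRingCatIso.hom := rfl
  rw [h1]
  infer_instance

instance (ht : ∀ i, t i ≠ 0) (S : Finset I) : IsOpenImmersion (boxC (O := O) t ht S) := by
  have := isIso_incl (O := O) t ht S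
  exact IsOpenImmersion.comp _ _

/-- The closure in the product of projective lines. -/
noncomputable def boxOf (ht : ∀ i, t i ≠ 0) : Box O t where
  Z := model (boxSpan O t)
  int := model_integral (boxSpan O t) 1 (by simpa using prod_mem_box (O := O) t (∅ : Finset I)) one_ne_zero
  g := modelMap (boxSpan O t)
  pr := modelMap_proper _ (Submodule.fg_span (Set.finite_range _))
  c := boxC t ht
  oi S := inferInstance
  cov y := by
    classical
    obtain ⟨S, hS⟩ := cover_val (boxSpan O t) (fun S : Finset I => ∏ i ∈ S, t i)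
      (prod_mem_box t) rfl (prod_ne t ht) (by
        intro V hV
        let S : Finset I := Finset.univ.filter fun i => t i ∉ V
        refine ⟨S, fun T => ?_⟩
        let VA : Subalgebra O K := { V.toSubring with algebraMap_mem' := hV }
        have h1 : chA O t S ≤ VA := by
          unfold chA
          rw [Algebra.adjoin_le_iff]
          rintro _ (⟨i, h, rfl⟩ | ⟨i, h, rfl⟩)
          · have h2 : t i ∉ V := (Finset.mem_filter.mp h).2
            rcases V.mem_or_inv_mem (t i) with h3 | h3
            · exact absurd h3 h2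
            · exact h3
          · by_contra h2
            exact h (Finset.mem_filter.mpr ⟨Finset.mem_univ i, h2⟩)
        exact h1 (prod_div_prod t ht S T)) y
    refine ⟨S, ?_⟩
    rw [← chB_opensRange (boxSpan O t) _ _ (prod_ne t ht S)] at hS
    have := isIso_incl (O := O) t ht S
    have h2 : (boxC (O := O) t ht S).opensRange =
        (chB (boxSpan O t) _ (prod_mem_box t S) (prod_ne t ht S)).opensRange :=
      Scheme.Hom.opensRange_comp_of_isIso _ _
    rw [← h2] at hS
    exact hS
  ξ := pt (mPiece (boxSpan O t)) (evalOne (boxSpan O t))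
    (tElt_mem (boxSpan O t) 1 (by simpa using prod_mem_box (O := O) t (∅ : Finset I))) one_pos
    ((evalOne_tElt _ _ _).trans_ne one_ne_zero)
  hξ S := by
    have h1 : evalOne (boxSpan O t) (tElt (boxSpan O t) _ (prod_mem_box t S)) ≠ 0 := by
      rw [evalOne_tElt]
      exact prod_ne t ht S
    have h2 := chB_pt (boxSpan O t) _ (prod_mem_box t S) (prod_ne t ht S) h1
    have h3 : Spec.map (CommRingCat.ofHom (chA O t S).val.toRingHom) ≫ boxC t ht S =
        Spec.map (CommRingCat.ofHom (Algebra.adjoin O
          {y : K | ∃ m ∈ boxSpan O t, y = m / ∏ i ∈ S, t i}).val.toRingHom) ≫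
        chB (boxSpan O t) _ (prod_mem_box t S) (prod_ne t ht S) := by
      unfold boxC
      rw [← Category.assoc, ← Spec.map_comp, ← CommRingCat.ofHom_comp]
      rfl
    rw [h3]
    exact h2.trans (pt_eq _ _ _ _ _ _ _ _)
  hg S := by
    have h1 := chB_modelMap (boxSpan O t) _ (prod_mem_box t S) (prod_ne t ht S)
    unfold boxC
    rw [Category.assoc]
    refine (congrArg _ h1).trans ?_
    rw [← Spec.map_comp, ← CommRingCat.ofHom_comp]
    rfl

end box

end Pool.Agent.H876.Res
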