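import Pool.Agent.H876.Res.Main

/-!
# The closure in a product of projective lines, described by its charts
-/

set_option autoImplicit false

open AlgebraicGeometry CategoryTheory Limits
open Pool.Agent.H968R2.Quad Pool.Agent.N98.PJ Pool.Agent.H876.PL

namespace Pool.Agent.H876.Res

/-- The homomorphism from the chart ring to the field. -/
def chι (O : Type) {K I : Type} [CommRing O] [Field K] [Algebra O K] (t : I → K) (S : Finset I) :
    chA O t S →+* K :=
  (chA O t S).val.toRingHom

/-- The integral scheme `Z`, proper over `O`, is the closure of the point with the coordinates `t i ∈ K`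
in the product of projective lines: for every set `S` of indices there is an open immersion into `Z` of
the spectrum of the subring of `K` generated by the `t i`, `i ∉ S`, and the inverses of the `t i`, `i ∈ S`,
compatible with the structure morphisms and with a point `ξ` of `Z` with values in `K`, and these open
subschemes cover `Z`. -/
structure ClosureP1 (O : Type) {K I : Type} [CommRing O] [Field K] [Algebra O K] (t : I → K)
    {Z : Scheme.{0}} (g : Z ⟶ Spec (CommRingCat.of O)) : Type where
  integral : AlgebraicGeometry.IsIntegral Z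
  proper : IsProper g
  chart : ∀ S : Finset I, Spec (CommRingCat.of (chA O t S)) ⟶ Z
  immersion : ∀ S, IsOpenImmersion (chart S)
  cover : ∀ y, ∃ S, y ∈ Set.range (chart S)
  ξ : Spec (CommRingCat.of K) ⟶ Z
  generic : ∀ S, Spec.map (CommRingCat.ofHom (chι O t S)) ≫ chart S = ξ
  structural : ∀ S, chart S ≫ g = Spec.map (CommRingCat.ofHom (algebraMap O (chA O t S)))

section

variable {O K I : Type} [CommRing O] [Field K] [Algebra O K] {t : I → K}

/-- The box. -/
def ClosureP1.toBox {Z : Scheme.{0}} {g : Z ⟶ Spec (CommRingCat.of O)} (D : ClosureP1 O t g) :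
    Box O t :=
  ⟨Z, D.integral, g, D.proper, D.chart, D.immersion, D.cover, D.ξ, D.generic, D.structural⟩

/-- The box. -/
def Box.closure (B : Box O t) : ClosureP1 O t B.g :=
  ⟨B.int, B.pr, B.c, B.oi, B.cov, B.ξ, B.hξ, B.hg⟩

/-- Two closures are isomorphic. -/
theorem closure_unique [Fintype I] (B B' : Box O t) : ∃ φ : B.Z ≅ B'.Z, φ.hom ≫ B'.g = B.g := by
  have := B.int
  have := B'.int
  have := B.pr
  have := B'.pr
  have := B.dominant
  have := B'.dominant
  obtain ⟨p, hp1, hp2, -⟩ := exists_proj (id : I → I) B (show Box O (t ∘ id) from B')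
  obtain ⟨p', hp1', hp2', -⟩ := exists_proj (id : I → I) B' (show Box O (t ∘ id) from B)
  have hp1 : p ≫ B'.g = B.g := hp1
  have hp2 : B.ξ ≫ p = B'.ξ := hp2
  have hp1' : p' ≫ B.g = B'.g := hp1'
  have hp2' : B'.ξ ≫ p' = B.ξ := hp2'
  refine ⟨⟨p, p', ?_, ?_⟩, hp1⟩
  · refine ext_of_isDominant_of_isSeparated B.g ?_ B.ξ ?_
    · rw [Category.assoc, hp1', hp1, Category.id_comp]
    · rw [reassoc_of% hp2, hp2', Category.comp_id]
  · refine ext_of_isDominant_of_isSeparated B'.g ?_ B'.ξ ?_
    · rw [Category.assoc, hp1, hp1', Category.id_comp]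
    · rw [reassoc_of% hp2', hp2, Category.comp_id]

/-- The rings of the charts do not change if coordinates which are zero are left out. -/
lemma chA_nonzero [Fintype {i // t i ≠ 0}] (S : Finset I) :
    chA O (fun i : {i // t i ≠ 0} => t i.1) (pre Subtype.val S) = chA O t S := by
  apply le_antisymm
  · exact chA_le t Subtype.val S
  · unfold chA
    rw [Algebra.adjoin_le_iff]
    rintro _ (⟨i, hi, rfl⟩ | ⟨i, hi, rfl⟩)
    · by_cases h : t i = 0
      · rw [h, inv_zero]
        exact Subalgebra.zero_mem _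
      · exact Algebra.subset_adjoin (Or.inl ⟨⟨i, h⟩, (mem_pre _ _ _).mpr hi, rfl⟩)
    · by_cases h : t i = 0
      · rw [h]
        exact Subalgebra.zero_mem _
      · exact Algebra.subset_adjoin (Or.inr ⟨⟨i, h⟩, fun h' => hi ((mem_pre _ _ _).mp h'), rfl⟩)

/-- The box of a family of elements which can be zero. -/
noncomputable def boxAll [Fintype I] [Fintype {i // t i ≠ 0}] (B : Box O (fun i : {i // t i ≠ 0} => t i.1)) :
    Box O t where
  Z := B.Z
  int := B.int
  g := B.g
  pr := B.pr
  c S := Spec.map (CommRingCat.ofHom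
    (Subalgebra.inclusion (chA_nonzero (O := O) (t := t) S).le).toRingHom) ≫ B.c (pre Subtype.val S)
  oi S := by
    have hoi := B.oi (pre Subtype.val S)
    have hbij : Function.Bijective
        (Subalgebra.inclusion (chA_nonzero (O := O) (t := t) S).le) := by
      refine ⟨Subalgebra.inclusion_injective _, ?_⟩
      rintro ⟨x, hx⟩
      exact ⟨⟨x, (chA_nonzero (O := O) (t := t) S).ge hx⟩, rfl⟩
    have he : IsIso (Spec.map (CommRingCat.ofHom
        (Subalgebra.inclusion (chA_nonzero (O := O) (t := t) S).le).toRingHom)) := by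
      have h1 : CommRingCat.ofHom
          (Subalgebra.inclusion (chA_nonzero (O := O) (t := t) S).le).toRingHom =
          (RingEquiv.ofBijective _ hbij).toCommRingCatIso.hom := rfl
      rw [h1]
      infer_instance
    exact IsOpenImmersion.comp _ _
  cov y := by
    classical
    obtain ⟨S, x, hx⟩ := B.cov y
    let S' : Finset I := S.map (Function.Embedding.subtype _)
    have hS' : pre (Subtype.val : {i // t i ≠ 0} → I) S' = S := by
      ext i
      rw [mem_pre]
      change i.1 ∈ S.map (Function.Embedding.subtype _) ↔ i ∈ S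
      rw [Finset.mem_map]
      constructor
      · rintro ⟨j, hj, h⟩
        have : j = i := Subtype.ext h
        rwa [← this]
      · intro h
        exact ⟨i, h, rfl⟩
    refine ⟨S', ?_⟩
    have hbij : Function.Bijective
        (Subalgebra.inclusion (chA_nonzero (O := O) (t := t) S').le) := by
      refine ⟨Subalgebra.inclusion_injective _, ?_⟩
      rintro ⟨x, hx⟩
      exact ⟨⟨x, (chA_nonzero (O := O) (t := t) S').ge hx⟩, rfl⟩
    have he : IsIso (Spec.map (CommRingCat.ofHom
        (Subalgebra.inclusion (chA_nonzero (O := O) (t := t) S').le).toRingHom)) := by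
      have h1 : CommRingCat.ofHom
          (Subalgebra.inclusion (chA_nonzero (O := O) (t := t) S').le).toRingHom =
          (RingEquiv.ofBijective _ hbij).toCommRingCatIso.hom := rfl
      rw [h1]
      infer_instance
    have h2 : y ∈ Set.range (B.c (pre Subtype.val S')) := by
      rw [hS']
      exact ⟨x, hx⟩
    obtain ⟨x', hx'⟩ := h2
    obtain ⟨z, hz⟩ := (Spec.map (CommRingCat.ofHom
      (Subalgebra.inclusion (chA_nonzero (O := O) (t := t) S').le).toRingHom)).surjective x'
    refine ⟨z, ?_⟩
    rw [Scheme.Hom.comp_apply, hz, hx']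
  ξ := B.ξ
  hξ S := by
    rw [← B.hξ (pre Subtype.val S), ← Category.assoc, ← Spec.map_comp, ← CommRingCat.ofHom_comp]
    rfl
  hg S := by
    rw [Category.assoc, B.hg, ← Spec.map_comp, ← CommRingCat.ofHom_comp]
    rfl

/-- Existence. -/
theorem exists_closure [Fintype I] (t : I → K) :
    ∃ (Z : Scheme.{0}) (g : Z ⟶ Spec (CommRingCat.of O)), Nonempty (ClosureP1 O t g) := by
  classical
  let B := boxAll (boxOf (O := O) (fun i : {i // t i ≠ 0} => t i.1) fun i => i.2)
  exact ⟨B.Z, B.g, ⟨B.closure⟩⟩

/-- The closure is a projective integral scheme with the function field `K`. -/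
theorem box_functionField (B : Box O t)
    (hfr : ∀ z : K, ∃ a ∈ Algebra.adjoin O (Set.range t), ∃ b ∈ Algebra.adjoin O (Set.range t),
      b ≠ 0 ∧ z = a / b) (hint : AlgebraicGeometry.IsIntegral B.Z) : IsFunctionField O K B.g := by
  have hoi := B.oi ∅
  exact functionField_of_chart (Z := B.Z) (chA O t ∅) (by rw [chA_empty]; exact hfr) (B.c ∅)
    (B.hg ∅)

end

/-- The closures of the spaces of configurations with the function field `K` have resolutions. -/
def ClosuresHave' {O : Type} [CommRing O]
    (Rg : ∀ (Y : Scheme.{0}), (Y ⟶ Spec (CommRingCat.of O)) → Prop)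
    (Sm : ∀ (B : Type) [CommRing B] [Algebra O B], Prop) (P : ∀ (r : ℕ), (Fin r → O) → Prop)
    (K : Type) [Field K] [Algebra O K] : Prop :=
  ∀ (r : ℕ) (c : Fin r → O), P r c → ∀ (N : ℕ) (l : Fin N → Fin 4)
    (Z : Finset (Lab r (Fin N) × Lab r (Fin N) × Lab r (Fin N))), Distinct Z →
    IsDomain (ConfRing c l Z) → Sm (ConfRing c l Z) → ∀ ev : ConfRing c l Z →ₐ[O] K,
    Function.Injective ev → (∀ z : K, ∃ a b, ev b ≠ 0 ∧ z = ev a / ev b) →
    ∀ (Y : Scheme.{0}) (g : Y ⟶ Spec (CommRingCat.of O)),
      Nonempty (ClosureP1 O (fun i => ev (xcoord c l Z i)) g) → HasRes Rg g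

/-- All integral separated schemes of finite type over `O` with the function field `K` have resolutions. -/
def ModelsHave {O : Type} [CommRing O]
    (Rg : ∀ (Y : Scheme.{0}), (Y ⟶ Spec (CommRingCat.of O)) → Prop) (K : Type) [Field K]
    [Algebra O K] : Prop :=
  ∀ (X : Scheme.{0}) (_ : IsIntegral X) (f : X ⟶ Spec (CommRingCat.of O)), IsSeparated f →
    LocallyOfFiniteType f → QuasiCompact f → IsFunctionField O K f → HasRes Rg f

theorem models_iff {O : Type} [CommRing O] [IsNoetherianRing O]
    {Rg : ∀ (Y : Scheme.{0}), (Y ⟶ Spec (CommRingCat.of O)) → Prop}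
    (hRg : ∀ {U Y : Scheme.{0}} (j : U ⟶ Y) [IsOpenImmersion j] (g : Y ⟶ Spec (CommRingCat.of O)),
      Rg Y g → Rg U (j ≫ g))
    {Sm : ∀ (B : Type) [CommRing B] [Algebra O B], Prop} (hSm : Generic O Sm)
    {P : ∀ (r : ℕ), (Fin r → O) → Prop}
    (hc : ∀ (B : Type) [CommRing B] [IsDomain B] [Algebra O B] (F : Finset O),
      ∃ (r : ℕ) (c : Fin r → O), (∀ x ∈ F, Cst c x) ∧ Function.Injective (bpt B c) ∧ P r c)
    (K : Type) [Field K] [Algebra O K] : ModelsHave Rg K ↔ ClosuresHave' Rg Sm P K := by
  classical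
  constructor
  · intro h r c _ N l Z _ _ _ ev _ hfr Y g ⟨D⟩
    have hint := D.integral
    have hpr := D.proper
    exact h _ hint _ inferInstance inferInstance inferInstance
      (box_functionField D.toBox (conf_frac_adjoin c l Z ev hfr) hint)
  · intro h X hX f hsep hlft hqc hff
    obtain ⟨H, hH⟩ := res_of_closure (Rg := Rg) hRg f hff
    obtain ⟨D, -, hfg⟩ := exists_finite_atlas hff
    obtain ⟨α, -⟩ := D.cov (Classical.arbitrary X)
    obtain ⟨r, c, N, l, Z, hP, h1, h2, h3, ev, h4, h5, h6⟩ :=
      exists_coord hSm P hc (D.A α) (hfg α) (D.frac α) H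
    let t : Fin N → K := fun i => ev (xcoord c l Z i)
    let B := boxAll (boxOf (O := O) (fun i : {i // t i ≠ 0} => t i.1) fun i => i.2)
    have h7 := h r c hP N l Z h1 h2 h3 ev h4 h5 B.Z B.g ⟨B.closure⟩
    refine hH {i // t i ≠ 0} (fun i => t i.1) (fun i => i.2) ?_ h7
    intro x hx
    rcases h6 x hx with h8 | ⟨i, h8⟩
    · exact Or.inl h8
    · by_cases h9 : t i = 0
      · exact Or.inl ⟨0, by rw [h8, map_zero]; exact h9⟩
      · exact Or.inr ⟨⟨i, h9⟩, h8⟩

/-- Smoothness is inherited by open subschemes. -/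
lemma smooth_open {k : Type} [CommRing k] {U Y : Scheme.{0}} (j : U ⟶ Y) [IsOpenImmersion j]
    (g : Y ⟶ Spec (CommRingCat.of k)) (h : AlgebraicGeometry.Smooth g) :
    AlgebraicGeometry.Smooth (j ≫ g) := by
  infer_instance

/-- Regularity is inherited by open subschemes. -/
lemma regular_open {U Y : Scheme.{0}} (j : U ⟶ Y) [IsOpenImmersion j]
    (h : ∀ y : Y, IsRegularLocalRing (Y.presheaf.stalk y)) (x : U) :
    IsRegularLocalRing (U.presheaf.stalk x) := by
  have h1 := h (j x)
  exact IsRegularLocalRing.of_ringEquiv (asIso (j.stalkMap x)).commRingCatIsoToRingEquiv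

/-- Perfect fields. -/
theorem models_perfect (k : Type) [Field k] [PerfectField k] (K : Type) [Field K] [Algebra k K] :
    ModelsHave (O := k) (fun Y g => AlgebraicGeometry.Smooth (X := Y) g) K ↔
      ClosuresHave' (O := k) (fun Y g => AlgebraicGeometry.Smooth (X := Y) g)
        (fun B [CommRing B] [Algebra k B] => Algebra.Smooth k B)
        (fun _ c => Function.Injective c ∧ (∀ j, c j ≠ 0) ∧ ∀ j, c j ≠ 1) K := by
  refine models_iff (O := k) (fun j _ g h => smooth_open j g h) generic_smooth ?_ K
  intro B _ _ _ F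
  obtain ⟨r, c, h1, h2, h3, h4⟩ := exists_consts F
  refine ⟨r, c, fun x hx => ?_, bpt_inj B c h2 h3, h2, h3, h4⟩
  rcases h1 x hx with rfl | rfl | ⟨j, rfl⟩
  · exact cst_zero c
  · exact cst_one c
  · exact cst_fix c j

/-- Rings in which all elements are integers: no fixed points are needed. -/
theorem models_int (O : Type) [CommRing O] [IsNoetherianRing O]
    (hO : Function.Surjective (Int.cast : ℤ → O))
    {Rg : ∀ (Y : Scheme.{0}), (Y ⟶ Spec (CommRingCat.of O)) → Prop}
    (hRg : ∀ {U Y : Scheme.{0}} (j : U ⟶ Y) [IsOpenImmersion j] (g : Y ⟶ Spec (CommRingCat.of O)),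
      Rg Y g → Rg U (j ≫ g))
    {Sm : ∀ (B : Type) [CommRing B] [Algebra O B], Prop} (hSm : Generic O Sm)
    (K : Type) [Field K] [Algebra O K] :
    ModelsHave Rg K ↔ ClosuresHave' Rg Sm (fun r _ => r = 0) K := by
  refine models_iff hRg hSm ?_ K
  intro B _ _ _ F
  refine ⟨0, ![], fun x _ => ?_, bpt_inj_zero B _, rfl⟩
  obtain ⟨m, rfl⟩ := hO x
  exact cst_int _ m

end Pool.Agent.H876.Res
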