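import Pool.Agent.H876.Res.Box
import Pool.Agent.H876.Res.Bir

/-!
# Chow's lemma for closures in products of projective lines
-/

set_option autoImplicit false

open AlgebraicGeometry CategoryTheory Limits HomogeneousLocalization
open Pool.Agent.H968R2.Quad Pool.Agent.N98.PJ

namespace Pool.Agent.H876.Res

section proj

variable {O K : Type} [CommRing O] [Field K] [Algebra O K] {I J : Type} [Fintype J]

/-- The preimage of a set. -/
noncomputable def pre {I J : Type} [Fintype J] (f : J → I) (S : Finset I) : Finset J := by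
  classical
  exact Finset.univ.filter fun j => f j ∈ S

lemma mem_pre (f : J → I) (S : Finset I) (j : J) : j ∈ pre f S ↔ f j ∈ S := by
  classical
  unfold pre
  simp only [Finset.mem_filter, Finset.mem_univ, true_and]

lemma chA_le (t : I → K) (f : J → I) (S : Finset I) : chA O (t ∘ f) (pre f S) ≤ chA O t S := by
  unfold chA
  rw [Algebra.adjoin_le_iff]
  rintro _ (⟨j, hj, rfl⟩ | ⟨j, hj, rfl⟩)
  · exact Algebra.subset_adjoin (Or.inl ⟨f j, (mem_pre f S j).mp hj, rfl⟩)
  · exact Algebra.subset_adjoin (Or.inr ⟨f j, fun h => hj ((mem_pre f S j).mpr h), rfl⟩)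

/-- The generic point is dense. -/
lemma Box.dominant {t : I → K} (B : Box O t) : IsDominant B.ξ := by
  have := B.int
  have := B.oi
  obtain ⟨S, x, -⟩ := B.cov (Classical.arbitrary B.Z)
  rw [← B.hξ S]
  have h1 : IsDominant (Spec.map (CommRingCat.ofHom (chA O t S).val.toRingHom)) :=
    isDominant_spec' _ Subtype.val_injective
  have h2 : IsDominant (B.c S) := by
    refine ⟨?_⟩
    refine IsOpen.dense (B.c S).isOpenEmbedding.isOpen_range ?_
    exact ⟨_, x, rfl⟩
  infer_instance

/-- The projection to a product of fewer lines. -/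
theorem exists_proj {t : I → K} (f : J → I) (B : Box O t) (B' : Box O (t ∘ f)) :
    ∃ p : B.Z ⟶ B'.Z, p ≫ B'.g = B.g ∧ B.ξ ≫ p = B'.ξ ∧ ∀ S, B.c S ≫ p =
      Spec.map (CommRingCat.ofHom (Subalgebra.inclusion (chA_le (O := O) t f S)).toRingHom) ≫
        B'.c (pre f S) := by
  have := B.int
  have := B'.pr
  have := B.dominant
  obtain ⟨p, hp1, hp2⟩ := glue_charts (S := Spec (.of O)) B.g B'.g
    (fun S => Spec (.of (chA O t S))) B.c B.oi B.cov (fun S => Spec.map (CommRingCat.ofHom
      (Subalgebra.inclusion (chA_le (O := O) t f S)).toRingHom) ≫ B'.c (pre f S))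
    (fun S => by
      rw [Category.assoc, B'.hg, ← Spec.map_comp, ← CommRingCat.ofHom_comp]
      exact (B.hg S).symm) B.ξ
    (fun S => Spec.map (CommRingCat.ofHom (chA O t S).val.toRingHom)) B.hξ B'.ξ
    (fun S => by
      rw [← Category.assoc, ← Spec.map_comp, ← CommRingCat.ofHom_comp, ← B'.hξ (pre f S)]
      rfl)
  refine ⟨p, hp1, ?_, fun S => hp2 S⟩
  obtain ⟨S, -, -⟩ := B.cov (Classical.arbitrary B.Z)
  rw [← B.hξ S, Category.assoc, hp2, ← Category.assoc, ← Spec.map_comp, ← CommRingCat.ofHom_comp, ← B'.hξ (pre f S)]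
  rfl

lemma pre_empty (f : J → I) : pre f (∅ : Finset I) = ∅ := by
  ext j
  rw [mem_pre]
  simp

lemma chA_empty (t : I → K) : chA O t ∅ = Algebra.adjoin O (Set.range t) := by
  unfold chA
  congr 1
  ext x
  constructor
  · rintro (⟨i, hi, -⟩ | ⟨i, -, rfl⟩)
    · exact absurd hi (Finset.notMem_empty i)
    · exact ⟨i, rfl⟩
  · rintro ⟨i, rfl⟩
    exact Or.inr ⟨i, Finset.notMem_empty i, rfl⟩

end proj

/-- A covering of a scheme over `O` with the function field `K` by the spectra of subrings of `K`. -/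
structure Atlas (O K : Type) [CommRing O] [Field K] [Algebra O K] {X : Scheme.{0}}
    (f : X ⟶ Spec (.of O)) where
  Λ : Type
  A : Λ → Subalgebra O K
  c : ∀ α, Spec (.of (A α)) ⟶ X
  oi : ∀ α, IsOpenImmersion (c α)
  cov : ∀ x, ∃ α, x ∈ Set.range (c α)
  χ : Spec (.of K) ⟶ X
  hχ : ∀ α, Spec.map (CommRingCat.ofHom (A α).val.toRingHom) ≫ c α = χ
  hf : ∀ α, c α ≫ f = Spec.map (CommRingCat.ofHom (algebraMap O (A α)))
  frac : ∀ α (z : K), ∃ a ∈ A α, ∃ b ∈ A α, b ≠ 0 ∧ z = a / b

/-- A subalgebra localized at an element. -/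
def locB {O L : Type} [CommRing O] [Field L] [Algebra O L] (R : Subalgebra O L) (b : L)
    (hb : b ∈ R) : Subalgebra O L where
  carrier := {x | ∃ n : ℕ, x * b ^ n ∈ R}
  mul_mem' := by
    rintro x y ⟨n, hn⟩ ⟨m, hm⟩
    refine ⟨n + m, ?_⟩
    have h1 : x * y * b ^ (n + m) = (x * b ^ n) * (y * b ^ m) := by ring
    rw [h1]
    exact R.mul_mem hn hm
  add_mem' := by
    rintro x y ⟨n, hn⟩ ⟨m, hm⟩
    refine ⟨n + m, ?_⟩
    have h1 : (x + y) * b ^ (n + m) = (x * b ^ n) * b ^ m + (y * b ^ m) * b ^ n := by ring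
    rw [h1]
    exact R.add_mem (R.mul_mem hn (R.pow_mem hb m)) (R.mul_mem hm (R.pow_mem hb n))
  algebraMap_mem' r := ⟨0, by rw [pow_zero, mul_one]; exact R.algebraMap_mem r⟩

lemma le_locB {O L : Type} [CommRing O] [Field L] [Algebra O L] (R : Subalgebra O L) (b : L)
    (hb : b ∈ R) : R ≤ locB R b hb := fun x hx => ⟨0, by rwa [pow_zero, mul_one]⟩

lemma inv_mem_locB {O L : Type} [CommRing O] [Field L] [Algebra O L] (R : Subalgebra O L) (b : L)
    (hb : b ∈ R) (hb0 : b ≠ 0) : b⁻¹ ∈ locB R b hb :=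
  ⟨1, by rw [pow_one, inv_mul_cancel₀ hb0]; exact R.one_mem⟩

/-- Open immersions from localizations. -/
lemma openImm_loc {R C : Type} [CommRing R] [CommRing C] (f : R →+* C)
    (hf : Function.Injective f) (b : R) (hb : IsUnit (f b))
    (h : ∀ c : C, ∃ (n : ℕ) (a : R), c * f b ^ n = f a) :
    IsOpenImmersion (Spec.map (CommRingCat.ofHom f)) := by
  algebraize [f]
  have h1 : IsLocalization.Away b C := by
    refine (isLocalization_iff (M := Submonoid.powers b) (S := C)).2
      ⟨fun y => ?_, fun z => ?_, fun {x y} hxy => ?_⟩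
    · obtain ⟨_, n, rfl⟩ := y
      change IsUnit (f (b ^ n))
      rw [map_pow]
      exact hb.pow n
    · obtain ⟨n, a, h2⟩ := h z
      refine ⟨⟨a, ⟨b ^ n, n, rfl⟩⟩, ?_⟩
      change z * f (b ^ n) = f a
      rw [map_pow]
      exact h2
    · exact ⟨1, by rw [hf hxy]⟩
  exact IsOpenImmersion.of_isLocalization b

/-- Two subalgebras of a field, the first with the given fraction field and contained in the second, which
is finitely generated, have a common localization. -/
theorem exists_common_loc {O K : Type} [CommRing O] [Field K] [Algebra O K] {A A' : Subalgebra O K}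
    (h : A ≤ A') (hfr : ∀ z : K, ∃ a ∈ A, ∃ b ∈ A, b ≠ 0 ∧ z = a / b) (hfg : A'.FG) :
    ∃ (C : Subalgebra O K) (h1 : A ≤ C) (h2 : A' ≤ C),
      IsOpenImmersion (Spec.map (CommRingCat.ofHom (Subalgebra.inclusion h1).toRingHom)) ∧
      IsOpenImmersion (Spec.map (CommRingCat.ofHom (Subalgebra.inclusion h2).toRingHom)) := by
  classical
  obtain ⟨G, hG⟩ := hfg
  have hnum : ∀ z : K, ∃ b ∈ A, b ≠ 0 ∧ z * b ∈ A := by
    intro z
    obtain ⟨a, ha, b, hb, hb0, hz⟩ := hfr z
    refine ⟨b, hb, hb0, ?_⟩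
    rw [hz, div_mul_cancel₀ _ hb0]
    exact ha
  choose den hden hden0 hnum using hnum
  let b : K := ∏ z ∈ G, den z
  have hb : b ∈ A := Subalgebra.prod_mem _ fun z _ => hden z
  have hb0 : b ≠ 0 := Finset.prod_ne_zero_iff.2 fun z _ => hden0 z
  let C := locB A b hb
  have h1 : A ≤ C := le_locB A b hb
  have h2 : A' ≤ C := by
    rw [← hG, Algebra.adjoin_le_iff]
    intro y hy
    refine ⟨1, ?_⟩
    rw [pow_one]
    change y * ∏ z ∈ G, den z ∈ _
    rw [← Finset.mul_prod_erase _ _ hy, ← mul_assoc]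
    exact Subalgebra.mul_mem _ (hnum y) (Subalgebra.prod_mem _ fun z _ => hden z)
  have hinv : b⁻¹ ∈ C := inv_mem_locB A b hb hb0
  have hunit : ∀ c : C, (c : K) = b → IsUnit c := by
    intro c hc
    refine IsUnit.of_mul_eq_one ⟨b⁻¹, hinv⟩ ?_
    apply Subtype.ext
    change (c : K) * b⁻¹ = 1
    rw [hc]
    exact mul_inv_cancel₀ hb0
  refine ⟨C, h1, h2, ?_, ?_⟩
  · refine openImm_loc _ (Subalgebra.inclusion_injective h1) ⟨b, hb⟩ (hunit _ rfl) fun c => ?_
    obtain ⟨n, hn⟩ := c.2
    exact ⟨n, ⟨_, hn⟩, Subtype.ext rfl⟩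
  · refine openImm_loc _ (Subalgebra.inclusion_injective h2) ⟨b, h hb⟩ (hunit _ rfl) fun c => ?_
    obtain ⟨n, hn⟩ := c.2
    exact ⟨n, ⟨_, h hn⟩, Subtype.ext rfl⟩

section chow

variable {O K : Type} [CommRing O] [Field K] [Algebra O K] {I : Type} [Fintype I] {t : I → K}
  {X : Scheme.{0}} {f : X ⟶ Spec (.of O)}

/-- The coordinates in a subalgebra. -/
def coordIn (t : I → K) (A : Subalgebra O K) : Type := {i // t i ∈ A}

noncomputable instance (A : Subalgebra O K) : Fintype (coordIn t A) := by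
  classical
  exact inferInstanceAs (Fintype {i // t i ∈ A})

/-- The coordinates in a subalgebra. -/
def coordVal (t : I → K) (A : Subalgebra O K) : coordIn t A → I := Subtype.val

/-- **Chow's lemma**: an integral separated scheme over `O`, whose affine charts are generated by some of
the coordinates, is the image of an open subscheme of the closure of the point with these coordinates in
the product of projective lines under a proper birational morphism. -/
theorem chow_box [IsIntegral X] [IsSeparated f] (D : Atlas O K f) (ht : ∀ i, t i ≠ 0)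
    (hA : ∀ α, D.A α = Algebra.adjoin O (Set.range (t ∘ coordVal t (D.A α)))) (B : Box O t) :
    ∃ (V : B.Z.Opens) (q : V.toScheme ⟶ X), (V : Set B.Z).Nonempty ∧ IsProper q ∧ Bir q ∧
      q ≫ f = V.ι ≫ B.g := by
  classical
  have hBint := B.int
  have hBpr := B.pr
  have hBoi := B.oi
  have hDoi := D.oi
  let B' : ∀ α, Box O (t ∘ coordVal t (D.A α)) := fun α => boxOf _ fun j => ht _
  have hB'int : ∀ α, IsIntegral (B' α).Z := fun α => (B' α).int
  have hB'pr : ∀ α, IsProper (B' α).g := fun α => (B' α).pr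
  have hB'oi : ∀ α S, IsOpenImmersion ((B' α).c S) := fun α => (B' α).oi
  choose p hp1 hp2 hp3 using fun α => exists_proj (coordVal t (D.A α)) B (B' α)
  have hpp : ∀ α, IsProper (p α) := fun α => by
    have h1 : IsProper (p α ≫ (B' α).g) := by rw [hp1]; infer_instance
    exact IsProper.of_comp (p α) (B' α).g
  -- the affine chart of `X`
  have hA' : ∀ α, D.A α = chA O (t ∘ coordVal t (D.A α)) ∅ := fun α => by
    rw [chA_empty]
    exact hA α
  let e : ∀ α, Spec (.of (chA O (t ∘ coordVal t (D.A α)) ∅)) ⟶ Spec (.of (D.A α)) := fun α =>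
    Spec.map (CommRingCat.ofHom (Subalgebra.inclusion (hA' α).le).toRingHom)
  have hbij : ∀ α, Function.Bijective (Subalgebra.inclusion (hA' α).le) := fun α => by
    refine ⟨Subalgebra.inclusion_injective _, ?_⟩
    rintro ⟨x, hx⟩
    exact ⟨⟨x, (hA' α).ge hx⟩, rfl⟩
  have he : ∀ α, IsIso (e α) := fun α => by
    have h1 : CommRingCat.ofHom (Subalgebra.inclusion (hA' α).le).toRingHom =
        (RingEquiv.ofBijective (Subalgebra.inclusion (hA' α).le) (hbij α)).toCommRingCatIso.hom :=
      rfl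
    change IsIso (Spec.map _)
    rw [h1]
    infer_instance
  let c0 : ∀ α, Spec (.of (chA O (t ∘ coordVal t (D.A α)) ∅)) ⟶ (B' α).Z := fun α => (B' α).c ∅
  let P : D.Λ → Scheme.{0} := fun α => pullback (p α) (c0 α)
  let j : ∀ α, P α ⟶ B.Z := fun α => pullback.fst (p α) (c0 α)
  let s : ∀ α, P α ⟶ Spec (.of (D.A α)) := fun α => pullback.snd (p α) (c0 α) ≫ e α
  have hs : ∀ α, IsProper (s α) := fun α => by
    change IsProper (pullback.snd (p α) (c0 α) ≫ e α)
    infer_instance
  have hj : ∀ α, IsOpenImmersion (j α) := fun α => by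
    change IsOpenImmersion (pullback.fst (p α) (c0 α))
    infer_instance
  -- the generic point of `P α`
  let ζ : ∀ α, Spec (.of K) ⟶ P α := fun α => pullback.lift B.ξ
    (Spec.map (CommRingCat.ofHom (chA O (t ∘ coordVal t (D.A α)) ∅).val.toRingHom)) (by
      rw [hp2]
      exact ((B' α).hξ ∅).symm)
  have hζ1 : ∀ α, ζ α ≫ j α = B.ξ := fun α => pullback.lift_fst _ _ _
  have hζ2 : ∀ α, ζ α ≫ s α = Spec.map (CommRingCat.ofHom (D.A α).val.toRingHom) := fun α => by
    change ζ α ≫ pullback.snd (p α) (c0 α) ≫ e α = _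
    rw [← Category.assoc]
    have h1 : ζ α ≫ pullback.snd (p α) (c0 α) = _ := pullback.lift_snd _ _ _
    rw [h1]
    change Spec.map _ ≫ Spec.map _ = _
    rw [← Spec.map_comp, ← CommRingCat.ofHom_comp]
    rfl
  -- the open subscheme
  let V : B.Z.Opens := ⨆ α, (j α).opensRange
  have hle : ∀ α, Set.range (j α) ⊆ Set.range V.ι := fun α => by
    rw [Scheme.Opens.range_ι]
    exact (le_iSup (fun α => (j α).opensRange) α : (j α).opensRange ≤ V)
  let l : ∀ α, P α ⟶ V.toScheme := fun α => IsOpenImmersion.lift V.ι (j α) (hle α)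
  have hl : ∀ α, l α ≫ V.ι = j α := fun α => IsOpenImmersion.lift_fac _ _ _
  have hloi : ∀ α, IsOpenImmersion (l α) := fun α => by
    have : IsOpenImmersion (l α ≫ V.ι) := by rw [hl]; exact hj α
    exact IsOpenImmersion.of_comp (l α) V.ι
  obtain ⟨α0, -, -⟩ := D.cov (Classical.arbitrary X)
  have hx0 : Nonempty (Spec (.of K)) := inferInstance
  have hPne : ∀ α, Nonempty (P α) := fun α => ⟨ζ α (Classical.arbitrary _)⟩
  have hVne : Nonempty V.toScheme := ⟨l α0 (Classical.arbitrary _)⟩
  have hVint : IsIntegral V.toScheme := isIntegral_of_isOpenImmersion V.ι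
  have hcov : ∀ y : V.toScheme, ∃ α x, l α x = y := by
    rintro ⟨y, hy⟩
    obtain ⟨α, x, hx⟩ := TopologicalSpace.Opens.mem_iSup.mp hy
    refine ⟨α, x, ?_⟩
    apply V.ι.isOpenEmbedding.injective
    rw [← Scheme.Hom.comp_apply, hl]
    exact hx
  let χ : Spec (.of K) ⟶ V.toScheme := ζ α0 ≫ l α0
  have hζl : ∀ α, ζ α ≫ l α = χ := fun α => by
    rw [← cancel_mono V.ι]
    change (ζ α ≫ l α) ≫ V.ι = (ζ α0 ≫ l α0) ≫ V.ι
    rw [Category.assoc, Category.assoc, hl, hl, hζ1, hζ1]
  have hχd : IsDominant χ := by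
    apply isDominant_of_comp_openImmersion χ V.ι
    change IsDominant ((ζ α0 ≫ l α0) ≫ V.ι)
    rw [Category.assoc, hl, hζ1]
    exact B.dominant
  have hcomm : ∀ α, (s α ≫ D.c α) ≫ f = l α ≫ V.ι ≫ B.g := fun α => by
    rw [Category.assoc, D.hf, reassoc_of% (hl α), ← hp1 α]
    change (pullback.snd (p α) (c0 α) ≫ e α) ≫ _ = pullback.fst (p α) (c0 α) ≫ p α ≫ (B' α).g
    rw [pullback.condition_assoc]
    have h1 : c0 α ≫ (B' α).g = _ := (B' α).hg ∅
    rw [h1, Category.assoc]
    congr 1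
    change Spec.map _ ≫ Spec.map _ = _
    rw [← Spec.map_comp, ← CommRingCat.ofHom_comp]
    rfl
  obtain ⟨q, hq1, hq2⟩ := glue_charts (S := Spec (.of O)) (V.ι ≫ B.g) f P l hloi hcov
    (fun α => s α ≫ D.c α) hcomm χ ζ hζl D.χ (fun α => by
      rw [← Category.assoc, hζ2, D.hχ])
  have hq2' : ∀ α, l α ≫ q = s α ≫ D.c α := hq2
  have hqsep : IsSeparated q := by
    have h1 : IsSeparated (q ≫ f) := by rw [hq1]; infer_instance
    exact IsSeparated.of_comp q f
  -- the preimages of the charts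
  let σ : ∀ α, P α ⟶ pullback q (D.c α) := fun α => pullback.lift (l α) (s α) (hq2' α)
  have hσ1 : ∀ α, σ α ≫ pullback.fst q (D.c α) = l α := fun α => pullback.lift_fst _ _ _
  have hσ2 : ∀ α, σ α ≫ pullback.snd q (D.c α) = s α := fun α => pullback.lift_snd _ _ _
  have hσoi : ∀ α, IsOpenImmersion (σ α) := fun α => by
    have : IsOpenImmersion (σ α ≫ pullback.fst q (D.c α)) := by rw [hσ1]; exact hloi α
    exact IsOpenImmersion.of_comp (σ α) (pullback.fst q (D.c α))
  have hQint : ∀ α, IsIntegral (pullback q (D.c α) : Scheme.{0}) := fun α => by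
    have : Nonempty (pullback q (D.c α) : Scheme.{0}) := ⟨σ α (Classical.arbitrary _)⟩
    exact isIntegral_of_isOpenImmersion (pullback.fst q (D.c α))
  have hσiso : ∀ α, IsIso (σ α) := fun α =>
    isIso_of_proper (σ α) (pullback.snd q (D.c α)) (by rw [hσ2]; exact hs α)
  have hprop : IsProper q := by
    refine proper_charts q (fun α => Spec (.of (D.A α))) D.c D.oi D.cov fun α => ?_
    have h1 : pullback.snd q (D.c α) = inv (σ α) ≫ s α := by
      rw [← cancel_epi (σ α), hσ2, IsIso.hom_inv_id_assoc]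
    rw [h1]
    have := hs α
    infer_instance
  refine ⟨V, q, ?_, hprop, ?_, hq1⟩
  · obtain ⟨v⟩ := hVne
    exact ⟨v.1, v.2⟩
  -- birational
  · have hle0 : D.A α0 ≤ chA O t ∅ := by
      rw [chA_empty, hA α0]
      apply Algebra.adjoin_mono
      rintro _ ⟨i, rfl⟩
      exact ⟨_, rfl⟩
    have hfg : (chA O t ∅).FG := by
      rw [chA_empty]
      exact ⟨(Set.finite_range t).toFinset, by rw [Set.Finite.coe_toFinset]⟩
    obtain ⟨C, h1, h2, ho1, ho2⟩ := exists_common_loc hle0 (D.frac α0) hfg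
    -- the chart of the box lies in `V`
    have hpre : pre (coordVal t (D.A α0)) (∅ : Finset I) = ∅ := pre_empty _
    have hle1 : chA O (t ∘ coordVal t (D.A α0)) ∅ ≤ chA O t ∅ := by
      rw [← hA' α0]
      exact hle0
    have hc : B.c ∅ ≫ p α0 = Spec.map (CommRingCat.ofHom (Subalgebra.inclusion hle1).toRingHom) ≫
        c0 α0 := by
      have h3 := hp3 α0 ∅
      have h4 : ∀ (S : Finset (coordIn t (D.A α0))) (hS : S = ∅)
          (h5 : chA O (t ∘ coordVal t (D.A α0)) S ≤ chA O t ∅),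
          Spec.map (CommRingCat.ofHom (Subalgebra.inclusion h5).toRingHom) ≫ (B' α0).c S =
          Spec.map (CommRingCat.ofHom (Subalgebra.inclusion hle1).toRingHom) ≫ (B' α0).c ∅ := by
        rintro S rfl h5
        rfl
      exact h3.trans (h4 _ hpre _)
    let m : Spec (.of (chA O t ∅)) ⟶ P α0 := pullback.lift (B.c ∅)
      (Spec.map (CommRingCat.ofHom (Subalgebra.inclusion hle1).toRingHom)) hc
    have hm1 : m ≫ j α0 = B.c ∅ := pullback.lift_fst _ _ _
    have hm2 : m ≫ s α0 = Spec.map (CommRingCat.ofHom (Subalgebra.inclusion hle0).toRingHom) := by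
      change m ≫ pullback.snd (p α0) (c0 α0) ≫ e α0 = _
      rw [← Category.assoc]
      have h3 : m ≫ pullback.snd (p α0) (c0 α0) = _ := pullback.lift_snd _ _ _
      rw [h3]
      change Spec.map _ ≫ Spec.map _ = _
      rw [← Spec.map_comp, ← CommRingCat.ofHom_comp]
      rfl
    have hmoi : IsOpenImmersion m := by
      have : IsOpenImmersion (m ≫ j α0) := by rw [hm1]; infer_instance
      have := hj α0
      exact IsOpenImmersion.of_comp m (j α0)
    refine ⟨Spec (.of C), inferInstance,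
      Spec.map (CommRingCat.ofHom (Subalgebra.inclusion h1).toRingHom) ≫ D.c α0,
      Spec.map (CommRingCat.ofHom (Subalgebra.inclusion h2).toRingHom) ≫ m ≫ l α0,
      inferInstance, ?_, ?_⟩
    · have := hloi α0
      infer_instance
    · rw [Category.assoc, Category.assoc, hq2', reassoc_of% hm2, ← Category.assoc,
        ← Spec.map_comp, ← CommRingCat.ofHom_comp]
      rfl

end chow

end Pool.Agent.H876.Res
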