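import Pool.Agent.H876.PL.Ring
import Pool.Agent.H876.PL.ZInt

/-!
# Configurations with prescribed coordinates

Every finitely generated field over `R`, together with finitely many elements, is the function field of a
space of configurations of distinct points, such that the given elements are coordinates of the points or
constants.
-/

set_option autoImplicit false

open CategoryTheory AlgebraicGeometry MvPolynomial Pool.Agent.Y116.UV Pool.Agent.Z125.UN
  Pool.Agent.Q193.LT

namespace Pool.Agent.H876.PL

section quot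

variable {R A : Type} [CommRing R] [CommRing A] [Algebra R A] {r : ℕ} {c : Fin r → R}

lemma det_point_frame {C : Type} [CommRing C] (x : C) :
    Matrix.det ![point 0 x, frame 1, frame 2] = x := by
  rw [Matrix.det_fin_three]
  simp [point, frame]

/-- Passing to a quotient, keeping points. -/
lemma good_quot' (G : Finset A) (H : Set A)
    (h : Good c ({x | x.1 = 0 ∧ (x.2 ∈ G ∨ x.2 ∈ H)} : Set (Fin 4 × A))) :
    Good c ({x | x.1 = 0 ∧ ∃ y ∈ H, x.2 = Ideal.Quotient.mk (Ideal.span (G : Set A)) y} :
      Set (Fin 4 × (A ⧸ Ideal.span (G : Set A)))) := by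
  classical
  obtain ⟨σ, i1, i2, l, Z, a, hE, hF⟩ := h
  have h1 : ∀ g : G, ∃ j : Lab r σ, pts c l a j = point 0 g.1 := fun g => hF (0, g.1) ⟨rfl, Or.inl g.2⟩
  choose j hj using h1
  let T : Finset (Lab r σ × Lab r σ × Lab r σ) :=
    Finset.univ.image fun g : G => (j g, Sum.inl 1, Sum.inl 2)
  have hT : ∀ (C : Type) [CommRing C] [Algebra R C] (f : A →ₐ[R] C) (g : G),
      det3 c l (f ∘ a) (j g, Sum.inl 1, Sum.inl 2) = f g := by
    intro C _ _ f g
    have h2 : pts c l (f ∘ a) (j g) = point 0 (f g.1) := by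
      funext s
      rw [← map_pts, hj, map_point]
    change Matrix.det ![pts c l (f ∘ a) (j g), frame 1, frame 2] = f g
    rw [h2]
    exact det_point_frame (f g.1)
  refine ⟨σ, i1, i2, l, Z ∪ T, Ideal.Quotient.mkₐ R (Ideal.span (G : Set A)) ∘ a, ⟨?_, ?_, ?_⟩, ?_⟩
  · intro t ht
    rw [Finset.mem_union] at ht
    rcases ht with ht | ht
    · rw [← map_det3, hE.rel t ht, map_zero]
    · obtain ⟨g, -, rfl⟩ := Finset.mem_image.mp ht
      rw [hT]
      exact Ideal.Quotient.eq_zero_iff_mem.mpr (Ideal.subset_span g.2)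
  · intro C _ _ p hp
    obtain ⟨f, hf⟩ := hE.lift C p fun t ht => hp t (Finset.mem_union_left _ ht)
    refine ⟨Ideal.Quotient.liftₐ _ f ?_, ?_⟩
    · intro x hx
      have h2 : Ideal.span (G : Set A) ≤ RingHom.ker f := by
        rw [Ideal.span_le]
        intro g hg
        have h3 := hp _ (Finset.mem_union_right _
          (Finset.mem_image_of_mem _ (Finset.mem_univ (⟨g, hg⟩ : G))))
        rw [← hf, hT] at h3
        exact h3
      exact h2 hx
    · funext i
      exact congrFun hf i
  · intro C _ _ f g hfg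
    apply Ideal.Quotient.algHom_ext
    exact hE.gen C _ _ (by
      funext i
      exact congrFun hfg i)
  · rintro ⟨m, q⟩ ⟨hm, y, hy, hq⟩
    change m = 0 at hm
    change q = Ideal.Quotient.mk (Ideal.span (G : Set A)) y at hq
    subst hm hq
    obtain ⟨i, hi⟩ := hF (0, y) ⟨rfl, Or.inr hy⟩
    refine ⟨i, ?_⟩
    funext s
    rw [← map_pts, hi, map_point]
    rfl

end quot

section simple

variable {R A : Type} [CommRing R] [CommRing A] [Algebra R A] {r : ℕ}

/-- The points of the encoding can be made pairwise different. -/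
theorem Enc.simple' [Nontrivial A] {σ : Type} [Fintype σ] {c : Fin r → R} {l : σ → Fin 4}
    {Z : Finset (Lab r σ × Lab r σ × Lab r σ)} {a : σ → A} (h : Enc c l Z a)
    (hc : Function.Injective (bpt A c)) :
    ∃ (σ' : Type) (_ : Fintype σ') (l' : σ' → Fin 4) (a' : σ' → A),
      Enc c l' (vanish c l' a') a' ∧ Function.Injective (pts c l' a') ∧
        ∀ j, ∃ j', pts c l a j = pts c l' a' j' := by
  classical
  let V : Finset (Fin 3 → A) := (Finset.univ.image fun i : σ => point (l i) (a i)) \
    (Finset.univ.image (bpt A c))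
  have hV : ∀ v : {v // v ∈ V}, ∃ i : σ, point (l i) (a i) = v.1 := by
    rintro ⟨v, hv⟩
    rw [Finset.mem_sdiff, Finset.mem_image] at hv
    obtain ⟨⟨i, -, hi⟩, -⟩ := hv
    exact ⟨i, hi⟩
  choose ι hι using hV
  have hVb : ∀ (v : {v // v ∈ V}) (b : Fin 4 ⊕ Fin r), bpt A c b ≠ v.1 := by
    rintro ⟨v, hv⟩ b hb
    rw [Finset.mem_sdiff] at hv
    exact hv.2 (Finset.mem_image.mpr ⟨b, Finset.mem_univ _, hb⟩)
  let l' : {v // v ∈ V} → Fin 4 := fun v => l (ι v)
  let a' : {v // v ∈ V} → A := fun v => a (ι v)
  have hpt : ∀ v, point (l' v) (a' v) = v.1 := hι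
  -- the new labels of the points
  have hρ : ∀ i : σ, ∃ q : Lab r {v // v ∈ V}, pts c l' a' q = point (l i) (a i) ∧
      ∀ hv : point (l i) (a i) ∈ V, q = Sum.inr (Sum.inr ⟨_, hv⟩) := by
    intro i
    by_cases hv : point (l i) (a i) ∈ V
    · exact ⟨Sum.inr (Sum.inr ⟨_, hv⟩), hpt ⟨_, hv⟩, fun _ => rfl⟩
    · have h1 : point (l i) (a i) ∈ Finset.univ.image (bpt A c) := by
        by_contra h2
        exact hv (Finset.mem_sdiff.mpr ⟨Finset.mem_image_of_mem _ (Finset.mem_univ i), h2⟩)
      obtain ⟨b, -, hb⟩ := Finset.mem_image.mp h1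
      refine ⟨blab r _ b, ?_, fun h3 => absurd h3 hv⟩
      rw [pts_blab, hb]
  choose ρ hρ1 hρ2 using hρ
  let L : Lab r σ → Lab r {v // v ∈ V} := Sum.elim Sum.inl (Sum.elim (Sum.inr ∘ Sum.inl) ρ)
  have hL : ∀ (C : Type) [CommRing C] [Algebra R C] (p' : {v // v ∈ V} → C) (p : σ → C),
      (∀ i, pts c l' p' (ρ i) = point (l i) (p i)) → ∀ j, pts c l p j = pts c l' p' (L j) := by
    intro C _ _ p' p hp j
    rcases j with j | j | i
    · rfl
    · rfl
    · exact (hp i).symm
  have hinj : Function.Injective (pts c l' a') := by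
    rintro (j | j | v) (j' | j' | v') hjj
    · exact congrArg (blab r _) (hc (a₁ := Sum.inl j) (a₂ := Sum.inl j') hjj)
    · exact congrArg (blab r _) (hc (a₁ := Sum.inl j) (a₂ := Sum.inr j') hjj)
    · exact absurd (hjj.trans (hpt v')) (hVb v' (Sum.inl j))
    · exact congrArg (blab r _) (hc (a₁ := Sum.inr j) (a₂ := Sum.inl j') hjj)
    · exact congrArg (blab r _) (hc (a₁ := Sum.inr j) (a₂ := Sum.inr j') hjj)
    · exact absurd (hjj.trans (hpt v')) (hVb v' (Sum.inr j))
    · exact absurd (hjj.symm.trans (hpt v)) (hVb v (Sum.inl j'))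
    · exact absurd (hjj.symm.trans (hpt v)) (hVb v (Sum.inr j'))
    · have h1 : v = v' := Subtype.ext ((hpt v).symm.trans (hjj.trans (hpt v')))
      rw [h1]
  refine ⟨{v // v ∈ V}, inferInstance, l', a', ⟨fun t ht => mem_vanish.mp ht, ?_, ?_⟩, hinj,
    fun j => ⟨L j, hL A a' a hρ1 j⟩⟩
  · intro C _ _ p' hp'
    let p : σ → C := fun i => crd (l i) (pts c l' p' (ρ i))
    -- the point with the label `ρ i` is on the line `l i`
    have hline : ∀ i, Matrix.det ![pts c l' p' (ρ i), frame (fr2 (l i)).1,
        frame (fr2 (l i)).2] = 0 := by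
      intro i
      have h1 := hp' (ρ i, Sum.inl (fr2 (l i)).1, Sum.inl (fr2 (l i)).2) (by
        rw [mem_vanish]
        change Matrix.det ![pts c l' a' (ρ i), frame (fr2 (l i)).1, frame (fr2 (l i)).2] = 0
        rw [hρ1, det_fr2_point])
      exact h1
    have hp : ∀ i, pts c l' p' (ρ i) = point (l i) (p i) := by
      intro i
      have h1 := hρ1 i
      have h2 := hline i
      change pts c l' p' (ρ i) = point (l i) (crd (l i) (pts c l' p' (ρ i)))
      generalize ρ i = q at h1 h2
      rcases q with j | j | v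
      · exact frame_line (A := A) j (l i) (a i) h1
      · refine point_line (A := A) 0 (l i) _ (a i) _ h1 (fun j' hj' => ?_) h2
        have h3 := hc (a₁ := Sum.inl j') (a₂ := Sum.inr j) hj'
        exact absurd h3 (by simp)
      · refine point_line (A := A) (l' v) (l i) (a' v) (a i) _ h1 (fun j' hj' => ?_) h2
        exact hVb v (Sum.inl j') (hj'.trans (hpt v))
    have hdet : ∀ t : Lab r σ × Lab r σ × Lab r σ, det3 c l p t =
        det3 c l' p' (L t.1, L t.2.1, L t.2.2) := by
      intro t
      unfold det3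
      rw [hL C p' p hp, hL C p' p hp, hL C p' p hp]
    have hdeta : ∀ t : Lab r σ × Lab r σ × Lab r σ, det3 c l a t =
        det3 c l' a' (L t.1, L t.2.1, L t.2.2) := by
      intro t
      unfold det3
      rw [hL A a' a hρ1, hL A a' a hρ1, hL A a' a hρ1]
    obtain ⟨f, hf⟩ := h.lift C p fun t ht => by
      rw [hdet]
      exact hp' _ (mem_vanish.mpr (by rw [← hdeta]; exact h.rel t ht))
    refine ⟨f, ?_⟩
    funext v
    have h1 : point (l (ι v)) (a (ι v)) ∈ V := by
      rw [hι v]
      exact v.2
    have h2 : ρ (ι v) = Sum.inr (Sum.inr v) := by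
      rw [hρ2 (ι v) h1]
      congr 2
      exact Subtype.ext (hι v)
    have h3 : f (a (ι v)) = p (ι v) := congrFun hf (ι v)
    change f (a (ι v)) = p' v
    rw [h3]
    change crd (l (ι v)) (pts c l' p' (ρ (ι v))) = p' v
    rw [h2]
    exact crd_point (l' v) (p' v)
  · intro C _ _ f g hfg
    refine h.gen C f g ?_
    funext i
    have h1 : ∀ f : A →ₐ[R] C, f (a i) = crd (l i) (pts c l' (f ∘ a') (ρ i)) := by
      intro f
      have h2 : pts c l' (f ∘ a') (ρ i) = point (l i) (f (a i)) := by
        funext s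
        rw [← map_pts, hρ1, map_point]
      rw [h2, crd_point]
    change f (a i) = g (a i)
    rw [h1 f, h1 g, hfg]

/-- A point of the line `y = 0` in a configuration is constant or a variable point. -/
lemma has_zero [Nontrivial A] {σ : Type} {c : Fin r → R} {l : σ → Fin 4} {a : σ → A} {q : A}
    {j : Lab r σ} (h : pts c l a j = point 0 q) :
    (∃ x : R, q = algebraMap R A x) ∨ ∃ i, a i = q := by
  rcases j with j | j | i
  · have h0 := congrFun h 0
    have h1 := congrFun h 1
    have h2 := congrFun h 2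
    clear h
    fin_cases j
    · exact absurd h2.symm one_ne_zero
    · exact absurd h1 one_ne_zero
    · exact Or.inl ⟨0, by rw [map_zero]; exact h0.symm⟩
    · exact absurd h1 one_ne_zero
  · refine Or.inl ⟨c j, ?_⟩
    have h0 := congrFun h 0
    exact h0.symm
  · have h0 := congrFun h 0
    have h1 := congrFun h 1
    have h2 := congrFun h 2
    change point (l i) (a i) 0 = point 0 q 0 at h0
    change point (l i) (a i) 1 = point 0 q 1 at h1
    change point (l i) (a i) 2 = point 0 q 2 at h2
    clear h
    generalize l i = m at h0 h1 h2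
    fin_cases m
    · exact Or.inr ⟨i, h0⟩
    · exact absurd h1 one_ne_zero
    · exact absurd h1 one_ne_zero
    · exact Or.inl ⟨0, by rw [map_zero]; exact h0.symm⟩

end simple

section equiv

variable {R A σ : Type} [CommRing R] [CommRing A] [Algebra R A] [Fintype σ] [DecidableEq σ] {r : ℕ}

/-- The coordinate of a variable point, a function on the space of configurations. -/
noncomputable def xcoord {R σ : Type} [CommRing R] [Fintype σ] [DecidableEq σ] {r : ℕ}
    (c : Fin r → R) (l : σ → Fin 4) (Z : Finset (Lab r σ × Lab r σ × Lab r σ)) (i : σ) :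
    ConfRing c l Z :=
  algebraMap (MvPolynomial σ R ⧸ collIdeal c l Z) (Localization.Away (otherDets c l Z))
    (Ideal.Quotient.mk (collIdeal c l Z) (X i))

variable {c : Fin r → R} {l : σ → Fin 4} {Z : Finset (Lab r σ × Lab r σ × Lab r σ)} {a : σ → A}

/-- The configurations with the collinear triples `Z` form an open subscheme of the spectrum of an
encoded ring, if `Z` consists of all collinear triples of the encoding. -/
theorem gen_equiv' (h : Enc c l Z a) :
    ∃ e : Localization.Away (∏ t ∈ Zᶜ, det3 c l a t) ≃ₐ[R] ConfRing c l Z,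
      ∀ s, e (algebraMap A _ (a s)) = xcoord c l Z s := by
  let G := fun t : {t // t ∈ Z} => det3 c l (X : σ → MvPolynomial σ R) t.1
  let w := ∏ t ∈ Zᶜ, det3 c l (X : σ → MvPolynomial σ R) t
  let wa := ∏ t ∈ Zᶜ, det3 c l a t
  obtain ⟨f, hf⟩ := h.lift (Pc G w) (pv G w) conf_rel
  have hfw : f wa = ∏ t ∈ Zᶜ, det3 c l (pv G w) t := by
    rw [map_prod]
    apply Finset.prod_congr rfl
    intro t _
    rw [map_det3, hf]
  let F : Localization.Away wa →ₐ[R] Pc G w :=
    IsLocalization.liftAlgHom (M := Submonoid.powers wa) (f := f) (by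
      rintro ⟨_, k, rfl⟩
      change IsUnit (f (wa ^ k))
      rw [map_pow, hfw]
      exact conf_unit.pow k)
  have hF : ∀ x, F (algebraMap A (Localization.Away wa) x) = f x := by
    intro x
    change IsLocalization.liftAlgHom _ _ = _
    rw [IsLocalization.liftAlgHom_apply, IsLocalization.lift_eq]
    rfl
  let ι : A →ₐ[R] Localization.Away wa := IsScalarTower.toAlgHom R A (Localization.Away wa)
  have h3 : ∀ k, aeval (ι ∘ a) (G k) = 0 := by
    rintro ⟨t, ht⟩
    change aeval (ι ∘ a) (det3 c l X t) = 0
    rw [map_det3]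
    have h4 : (aeval (ι ∘ a) : MvPolynomial σ R →ₐ[R] Localization.Away wa) ∘ X = ι ∘ a := by
      funext i
      exact aeval_X _ i
    rw [h4, ← map_det3, h.rel t ht, map_zero]
  have h5 : IsUnit (aeval (ι ∘ a) w) := by
    have h6 : aeval (ι ∘ a) w = ι wa := by
      rw [map_prod, map_prod]
      apply Finset.prod_congr rfl
      intro t _
      rw [map_det3, map_det3]
      congr 1
      funext i
      exact aeval_X _ i
    rw [h6]
    exact IsLocalization.map_units (M := Submonoid.powers wa) (Localization.Away wa)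
      ⟨wa, Submonoid.mem_powers wa⟩
  let E : Localization.Away wa ≃ₐ[R] Pc G w :=
    AlgEquiv.ofAlgHom F (pcLift G w (ι ∘ a) h3 h5) (by
      apply pc_ext
      intro s
      change F (pcLift G w (ι ∘ a) h3 h5 (pv G w s)) = pv G w s
      rw [pcLift_pv]
      change F (algebraMap A (Localization.Away wa) (a s)) = _
      rw [hF]
      exact congrFun hf s) (by
      apply IsLocalization.algHom_ext (Submonoid.powers wa)
      apply h.gen
      funext s
      change pcLift G w (ι ∘ a) h3 h5 (F (algebraMap A (Localization.Away wa) (a s))) =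
        algebraMap A (Localization.Away wa) (a s)
      rw [hF]
      have h6 : f (a s) = pv G w s := congrFun hf s
      rw [h6, pcLift_pv]
      rfl)
  refine ⟨E.trans (confE c l Z), fun s => ?_⟩
  have h7 : E (algebraMap A (Localization.Away wa) (a s)) = pv G w s := by
    change F (algebraMap A (Localization.Away wa) (a s)) = _
    rw [hF]
    exact congrFun hf s
  have h8 : (E.trans (confE c l Z)) (algebraMap A (Localization.Away wa) (a s)) =
      confE c l Z (pv G w s) := congrArg (confE c l Z) h7
  refine h8.trans ?_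
  rfl

end equiv

end Pool.Agent.H876.PL
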