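import Pool.Agent.H876.Res.Coord

/-!
# The universality theorem with prescribed coordinates
-/

set_option autoImplicit false

open CategoryTheory AlgebraicGeometry MvPolynomial Pool.Agent.Y116.UV Pool.Agent.Z125.UN
  Pool.Agent.Q193.LT

namespace Pool.Agent.H876.PL

/-- The constant `x` can be constructed from the fixed points `c`. -/
def Cst {R : Type} [CommRing R] {r : ℕ} (c : Fin r → R) (x : R) : Prop :=
  ∀ n : ℕ, (C x : MvPolynomial (Fin n) R) ∈
    constrRing c (Set.range (X : Fin n → MvPolynomial (Fin n) R))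

section cst

variable {R : Type} [CommRing R] {r : ℕ} (c : Fin r → R)

lemma cst_int (m : ℤ) : Cst c (m : R) := by
  intro n
  rw [map_intCast]
  exact intCast_mem _ m

lemma cst_zero : Cst c (0 : R) := by
  intro n
  rw [map_zero]
  exact Subring.zero_mem _

lemma cst_one : Cst c (1 : R) := by
  intro n
  rw [map_one]
  exact Subring.one_mem _

lemma cst_fix (j : Fin r) : Cst c (c j) := fun _ => constr_const j

end cst

section lift

variable {R A K : Type} [CommRing R] [CommRing A] [IsDomain A] [Algebra R A] [Field K] [Algebra R K]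

omit [IsDomain A] in
lemma lift_inj (f : A →ₐ[R] K) (hf : Function.Injective f) (w : A) (hw : w ≠ 0) :
    ∃ g : Localization.Away w →ₐ[R] K, Function.Injective g ∧
      ∀ x, g (algebraMap A (Localization.Away w) x) = f x := by
  have hne : ∀ y : Submonoid.powers w, f y ≠ 0 := by
    rintro ⟨_, n, rfl⟩ h
    change f (w ^ n) = 0 at h
    rw [map_pow] at h
    exact hw (hf ((eq_zero_of_pow_eq_zero h).trans (map_zero f).symm))
  let g : Localization.Away w →ₐ[R] K :=
    IsLocalization.liftAlgHom (M := Submonoid.powers w) (f := f) fun y => IsUnit.mk0 _ (hne y)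
  have hg : ∀ x, g (algebraMap A (Localization.Away w) x) = f x := by
    intro x
    change IsLocalization.liftAlgHom _ _ = _
    rw [IsLocalization.liftAlgHom_apply, IsLocalization.lift_eq]
    rfl
  refine ⟨g, ?_, hg⟩
  rw [injective_iff_map_eq_zero]
  intro x hx
  obtain ⟨⟨a, s⟩, h⟩ := IsLocalization.surj (Submonoid.powers w) x
  have h1 := congrArg g h
  rw [map_mul, hx, zero_mul, hg] at h1
  have h2 : a = 0 := hf (h1.symm.trans (map_zero f).symm)
  have h3 : x * algebraMap A (Localization.Away w) s = 0 := by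
    rw [h]
    change algebraMap A (Localization.Away w) a = 0
    rw [h2, map_zero]
  exact (IsUnit.mul_left_eq_zero (IsLocalization.map_units (Localization.Away w) s)).mp h3

end lift

/-- **Birational universality with prescribed coordinates**: a finitely generated field `K` over `R`,
together with finitely many elements, is the function field of a space of configurations, such that the
given elements are constants or coordinates. -/
theorem exists_coord {R : Type} [CommRing R] [IsNoetherianRing R]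
    {Sm : ∀ (B : Type) [CommRing B] [Algebra R B], Prop} (hSm : Generic R Sm)
    (P : ∀ (r : ℕ), (Fin r → R) → Prop)
    (hc : ∀ (B : Type) [CommRing B] [IsDomain B] [Algebra R B] (F : Finset R),
      ∃ (r : ℕ) (c : Fin r → R), (∀ x ∈ F, Cst c x) ∧ Function.Injective (bpt B c) ∧ P r c)
    {K : Type} [Field K] [Algebra R K] (B : Subalgebra R K) (hB : B.FG)
    (hfr : ∀ z : K, ∃ a ∈ B, ∃ b ∈ B, b ≠ 0 ∧ z = a / b) (H : Finset K) :
    ∃ (r : ℕ) (c : Fin r → R) (N : ℕ) (l : Fin N → Fin 4)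
      (Z : Finset (Lab r (Fin N) × Lab r (Fin N) × Lab r (Fin N))),
      P r c ∧ Distinct Z ∧ IsDomain (ConfRing c l Z) ∧ Sm (ConfRing c l Z) ∧
        ∃ ev : ConfRing c l Z →ₐ[R] K, Function.Injective ev ∧
          (∀ z : K, ∃ a b, ev b ≠ 0 ∧ z = ev a / ev b) ∧
          ∀ h ∈ H, (∃ x : R, h = algebraMap R K x) ∨ ∃ i, h = ev (xcoord c l Z i) := by
  classical
  -- the subalgebra with the given elements
  let B' : Subalgebra R K := B ⊔ Algebra.adjoin R (H : Set K)
  have hB' : B'.FG := hB.sup ⟨H, rfl⟩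
  have hft : Algebra.FiniteType R B' := B'.fg_iff_finiteType.mp hB'
  have hHB : ∀ h ∈ H, h ∈ B' := fun h hh =>
    (le_sup_right : Algebra.adjoin R (H : Set K) ≤ B') (Algebra.subset_adjoin hh)
  obtain ⟨w₁, hw₁, hSm₁⟩ := hSm.gen B'
  let B₁ := Localization.Away w₁
  have hdom₁ : IsDomain B₁ :=
    IsLocalization.isDomain_localization (powers_le_nonZeroDivisors_of_noZeroDivisors hw₁)
  have hft₁ : Algebra.FiniteType R B₁ := Algebra.FiniteType.trans (S := B') inferInstance inferInstance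
  obtain ⟨ev₁, hev₁, hev₁'⟩ := lift_inj B'.val Subtype.val_injective w₁ hw₁
  obtain ⟨n, φ, G, hs, hK, -⟩ := presents_univ (R := R) B₁
  -- the ring with the presentation
  let A' := MvPolynomial (Fin n) R ⧸ Ideal.span (G : Set (MvPolynomial (Fin n) R))
  have e : ∃ e : A' ≃ₐ[R] B₁, ∀ p, e (Ideal.Quotient.mk _ p) = φ p := by
    change ∃ e : (MvPolynomial (Fin n) R ⧸ Ideal.span (G : Set (MvPolynomial (Fin n) R))) ≃ₐ[R] B₁,
      ∀ p, e (Ideal.Quotient.mk _ p) = φ p
    rw [← hK]
    exact ⟨Ideal.quotientKerAlgEquivOfSurjective hs, fun p => rfl⟩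
  obtain ⟨e, he⟩ := e
  have hdom' : IsDomain A' := e.toMulEquiv.isDomain B₁
  have hSm' : Sm A' := hSm.iso B₁ A' ⟨e.symm⟩ hSm₁
  let ev' : A' →ₐ[R] K := ev₁.comp e.toAlgHom
  have hev' : Function.Injective ev' := hev₁.comp e.injective
  have hpol : ∀ h : {h // h ∈ H}, ∃ p : MvPolynomial (Fin n) R,
      ev' (Ideal.Quotient.mk _ p) = h.1 := by
    rintro ⟨h, hh⟩
    obtain ⟨p, hp⟩ := hs (algebraMap B' B₁ ⟨h, hHB h hh⟩)
    refine ⟨p, ?_⟩
    change ev₁ (e (Ideal.Quotient.mk _ p)) = h
    rw [he, hp, hev₁']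
    rfl
  choose p hp using hpol
  let H' : Finset (MvPolynomial (Fin n) R) := Finset.univ.image p
  let F : Finset R := (G ∪ H').biUnion fun g => g.support.image fun m => coeff m g
  obtain ⟨r, c, hF, hinj, hC⟩ := hc A' F
  have hmem : ∀ g ∈ G ∪ H', g ∈ constrRing c (Set.range (X : Fin n → MvPolynomial (Fin n) R)) := by
    intro g hg
    rw [g.as_sum]
    refine Subring.sum_mem _ fun m hm => ?_
    rw [monomial_eq]
    refine Subring.mul_mem _ (hF _ (Finset.mem_biUnion.mpr ⟨g, hg,
      Finset.mem_image_of_mem _ hm⟩) n) ?_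
    rw [Finsupp.prod]
    refine Subring.prod_mem _ fun i _ => Subring.pow_mem _ ?_ _
    exact constr_gen ⟨i, rfl⟩
  have h1 := good_finset (X := Set.range (X : Fin n → MvPolynomial (Fin n) R)) (good_poly c n) (by
    rintro _ ⟨i, rfl⟩
    exact ⟨rfl, i, rfl⟩) (G ∪ H') hmem
  have h2 := good_quot' G (H' : Set (MvPolynomial (Fin n) R)) (h1.mono (by
    rintro x ⟨hx1, hx2⟩
    refine Or.inr ⟨hx1, ?_⟩
    rw [Finset.mem_union]
    exact hx2))
  obtain ⟨σ, _, _, l, Z, a, hE, hH⟩ := h2
  obtain ⟨σ', _, l', a', hE', hinj', hlab⟩ := hE.simple' hinj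
  let f' := Fintype.equivFin σ'
  have hE2 := (hE'.rename f').enlarge
  have h2 : ∀ i : Lab r (Fin (Fintype.card σ')), pts c (l' ∘ f'.symm) (a' ∘ f'.symm) i =
      pts c l' a' (labE r f'.symm i) := by
    intro i
    rcases i with i | i | i <;> rfl
  have hinj2 : Function.Injective (pts c (l' ∘ f'.symm) (a' ∘ f'.symm)) := by
    intro i j hij
    rw [h2, h2] at hij
    have h3 := hinj' hij
    have h4 : Function.Injective (labE r f'.symm) := by
      unfold labE
      exact Function.Injective.sumMap Function.injective_id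
        (Function.Injective.sumMap Function.injective_id f'.symm.injective)
    exact h4 h3
  have hH' : ∀ h : {h // h ∈ H}, (∃ x : R, (Ideal.Quotient.mk _ (p h) : A') = algebraMap R A' x) ∨
      ∃ i, (a' ∘ f'.symm) i = (Ideal.Quotient.mk _ (p h) : A') := by
    intro h
    obtain ⟨j, hj⟩ := hH (0, Ideal.Quotient.mk _ (p h)) ⟨rfl, p h, by
      change p h ∈ H'
      exact Finset.mem_image_of_mem _ (Finset.mem_univ h), rfl⟩
    obtain ⟨j', hj'⟩ := hlab j
    have h5 : pts c (l' ∘ f'.symm) (a' ∘ f'.symm) (labE r f' j') = pts c l' a' j' := by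
      rcases j' with i | i | i
      · rfl
      · rfl
      · change point (l' (f'.symm (f' i))) (a' (f'.symm (f' i))) = point (l' i) (a' i)
        rw [Equiv.symm_apply_apply]
    exact has_zero ((h5.trans hj'.symm).trans hj)
  obtain ⟨g, hg⟩ := gen_equiv' hE2
  let w₂ : A' := ∏ t ∈ (vanish c (l' ∘ f'.symm) (a' ∘ f'.symm))ᶜ,
    det3 c (l' ∘ f'.symm) (a' ∘ f'.symm) t
  have hw₂ : w₂ ≠ 0 := by
    rw [Finset.prod_ne_zero_iff]
    intro t ht h3
    exact (Finset.mem_compl.mp ht) (mem_vanish.mpr h3)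
  let T' := Localization.Away w₂
  have hdomT : IsDomain T' :=
    IsLocalization.isDomain_localization (powers_le_nonZeroDivisors_of_noZeroDivisors hw₂)
  obtain ⟨ev₂, hev₂, hev₂'⟩ := lift_inj ev' hev' w₂ hw₂
  let ev : ConfRing c (l' ∘ f'.symm) (vanish c (l' ∘ f'.symm) (a' ∘ f'.symm)) →ₐ[R] K :=
    ev₂.comp g.symm.toAlgHom
  have hev1 : ∀ x : A', ev (g (algebraMap A' T' x)) = ev' x := by
    intro x
    change ev₂ (g.symm (g (algebraMap A' T' x))) = _
    rw [AlgEquiv.symm_apply_apply]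
    exact hev₂' x
  have hev2 : ∀ b ∈ B', ∃ x, ev x = b := by
    intro b hb
    refine ⟨g (algebraMap A' T' (e.symm (algebraMap B' B₁ ⟨b, hb⟩))), ?_⟩
    rw [hev1]
    change ev₁ (e (e.symm (algebraMap B' B₁ ⟨b, hb⟩))) = b
    rw [AlgEquiv.apply_symm_apply, hev₁']
    rfl
  refine ⟨r, c, _, _, _, hC, distinct_vanish hinj2, g.symm.toMulEquiv.isDomain T',
    hSm.iso T' _ ⟨g⟩ (hSm.loc A' w₂ hSm'), ev, hev₂.comp g.symm.injective, ?_, ?_⟩
  · intro z
    obtain ⟨x, hx, y, hy, hy0, hz⟩ := hfr z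
    obtain ⟨x', hx'⟩ := hev2 x ((le_sup_left : B ≤ B') hx)
    obtain ⟨y', hy'⟩ := hev2 y ((le_sup_left : B ≤ B') hy)
    exact ⟨x', y', by rw [hy']; exact hy0, by rw [hx', hy']; exact hz⟩
  · intro h hh
    rcases hH' ⟨h, hh⟩ with ⟨x, hx⟩ | ⟨i, hi⟩
    · refine Or.inl ⟨x, ?_⟩
      have h3 := hp ⟨h, hh⟩
      rw [hx] at h3
      rw [← ev'.commutes x]
      exact h3.symm
    · refine Or.inr ⟨i, ?_⟩
      have h3 := hp ⟨h, hh⟩
      rw [← hi] at h3
      have h4 := hg i
      rw [← h4]
      exact h3.symm.trans (hev1 _).symm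

end Pool.Agent.H876.PL
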