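import Pool.Agent.H876.Res.Coord2

/-!
# Exact universality: every domain of finite type is the coordinate ring of an incidence scheme
-/

set_option autoImplicit false

open CategoryTheory AlgebraicGeometry MvPolynomial Pool.Agent.Y116.UV Pool.Agent.Z125.UN
  Pool.Agent.Q193.LT

namespace Pool.Agent.H876.PL

section

variable {R A σ : Type} [CommRing R] [CommRing A] [Algebra R A] {r : ℕ}
  {c : Fin r → R} {l : σ → Fin 4} {Z : Finset (Lab r σ × Lab r σ × Lab r σ)} {a : σ → A}

/-- The ring of functions on the scheme of all positions of the points such that the triples in `Z` are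
collinear is isomorphic to the encoded ring. -/
theorem enc_equiv (h : Enc c l Z a) :
    ∃ e : (MvPolynomial σ R ⧸ collIdeal c l Z) ≃ₐ[R] A,
      ∀ s, e (Ideal.Quotient.mk (collIdeal c l Z) (X s)) = a s := by
  let Q := MvPolynomial σ R ⧸ collIdeal c l Z
  let x : σ → Q := fun s => Ideal.Quotient.mk (collIdeal c l Z) (X s)
  have hx : ∀ t ∈ Z, det3 c l x t = 0 := by
    intro t ht
    have h1 : (Ideal.Quotient.mkₐ R (collIdeal c l Z)) (det3 c l X t) = det3 c l x t := by
      rw [map_det3]
      rfl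
    rw [← h1]
    change Ideal.Quotient.mk (collIdeal c l Z) (det3 c l X t) = 0
    rw [Ideal.Quotient.eq_zero_iff_mem]
    exact Ideal.subset_span ⟨⟨t, ht⟩, rfl⟩
  obtain ⟨f, hf⟩ := h.lift Q x hx
  have hg0 : ∀ p ∈ collIdeal c l Z, aeval (R := R) a p = 0 := by
    intro p hp
    have h1 : collIdeal c l Z ≤ RingHom.ker (aeval (R := R) a) := by
      unfold collIdeal
      rw [Ideal.span_le]
      rintro _ ⟨⟨t, ht⟩, rfl⟩
      change aeval a (det3 c l X t) = 0
      rw [map_det3]
      have h4 : (aeval a : MvPolynomial σ R →ₐ[R] A) ∘ X = a := by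
        funext i
        exact aeval_X _ i
      rw [h4]
      exact h.rel t ht
    exact h1 hp
  let g : Q →ₐ[R] A := Ideal.Quotient.liftₐ (collIdeal c l Z) (aeval a) hg0
  have hgx : ∀ s, g (x s) = a s := by
    intro s
    change Ideal.Quotient.liftₐ (collIdeal c l Z) (aeval a) hg0
      (Ideal.Quotient.mk (collIdeal c l Z) (X s)) = a s
    rw [Ideal.Quotient.liftₐ_apply, Ideal.Quotient.lift_mk]
    exact aeval_X a s
  refine ⟨AlgEquiv.ofAlgHom g f ?_ ?_, hgx⟩
  · apply h.gen
    funext s
    change g (f (a s)) = a s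
    rw [show f (a s) = x s from congrFun hf s, hgx]
  · apply Ideal.Quotient.algHom_ext
    apply MvPolynomial.algHom_ext
    intro s
    change f (g (x s)) = x s
    rw [hgx]
    exact congrFun hf s

end

section

variable {R : Type} [CommRing R]

/-- If `w₁` divides `w₂`, then the localization at `w₂` inherits the property from the localization
at `w₁`. -/
lemma sm_dvd {Sm : ∀ (B : Type) [CommRing B] [Algebra R B], Prop} (hSm : Generic R Sm)
    {A : Type} [CommRing A] [IsDomain A] [Algebra R A] {w₁ w₂ : A} (hw₂ : w₂ ≠ 0) (hd : w₁ ∣ w₂)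
    (h : Sm (Localization.Away w₁)) : Sm (Localization.Away w₂) := by
  obtain ⟨v, hv⟩ := hd
  have hw₁ : w₁ ≠ 0 := by
    rintro rfl
    rw [zero_mul] at hv
    exact hw₂ hv
  let L := Localization.Away w₁
  let u : L := algebraMap A L w₂
  have h1 := hSm.loc L u h
  let T := Localization.Away u
  have hi1 : Function.Injective (algebraMap A L) :=
    IsLocalization.injective L (powers_le_nonZeroDivisors_of_noZeroDivisors hw₁)
  have hLd : IsDomain L :=
    IsLocalization.isDomain_localization (powers_le_nonZeroDivisors_of_noZeroDivisors hw₁)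
  have hu0 : u ≠ 0 := fun h0 => hw₂ (hi1 (h0.trans (map_zero _).symm))
  have hi2 : Function.Injective (algebraMap L T) :=
    IsLocalization.injective T (powers_le_nonZeroDivisors_of_noZeroDivisors hu0)
  have hAT : ∀ x : A, algebraMap A T x = algebraMap L T (algebraMap A L x) := fun x =>
    IsScalarTower.algebraMap_apply A L T x
  have hloc : IsLocalization.Away w₂ T := by
    refine ⟨?_, ?_, ?_⟩
    · rintro ⟨_, k, rfl⟩
      change IsUnit (algebraMap A T (w₂ ^ k))
      rw [hAT, map_pow, map_pow]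
      exact (IsLocalization.map_units (M := Submonoid.powers u) T
        ⟨u, Submonoid.mem_powers u⟩).pow k
    · intro z
      obtain ⟨⟨y, ⟨_, k, rfl⟩⟩, hy⟩ := IsLocalization.surj (Submonoid.powers u) z
      obtain ⟨⟨x, ⟨_, m, rfl⟩⟩, hx⟩ := IsLocalization.surj (Submonoid.powers w₁) y
      refine ⟨⟨x * v ^ m, ⟨w₂ ^ (k + m), k + m, rfl⟩⟩, ?_⟩
      change z * algebraMap A T (w₂ ^ (k + m)) = algebraMap A T (x * v ^ m)
      have hy' : z * algebraMap L T (u ^ k) = algebraMap L T y := hy
      have hx' : y * algebraMap A L (w₁ ^ m) = algebraMap A L x := hx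
      rw [hAT, hAT, pow_add, map_mul, map_mul, map_mul, map_mul, ← hx', ← mul_assoc]
      have h2 : algebraMap L T (algebraMap A L (w₂ ^ k)) = algebraMap L T (u ^ k) := by
        rw [map_pow]
      rw [h2, hy', hv, mul_pow, map_mul, map_mul, map_mul]
      ring
    · intro x y hxy
      rw [hAT, hAT] at hxy
      have hxy' : x = y := hi1 (hi2 hxy)
      exact ⟨1, by rw [hxy']⟩
  exact hSm.iso T _ ⟨((IsLocalization.algEquiv (Submonoid.powers w₂) T
    (Localization.Away w₂)).restrictScalars R)⟩ h1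

end

/-- **Exact universality**: every domain of finite type is isomorphic to the ring of functions on the
scheme of all positions of points on the four lines such that the triples in a set `Z` are collinear. The
points of the generic configuration are distinct, and `Z` is the set of its collinear triples. -/
theorem exists_exact {R : Type} [CommRing R] [IsNoetherianRing R]
    {Sm : ∀ (B : Type) [CommRing B] [Algebra R B], Prop} (hSm : Generic R Sm)
    (P : ∀ (r : ℕ), (Fin r → R) → Prop)
    (hc : ∀ (B : Type) [CommRing B] [IsDomain B] [Algebra R B] (F : Finset R),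
      ∃ (r : ℕ) (c : Fin r → R), (∀ x ∈ F, Cst c x) ∧ Function.Injective (bpt B c) ∧ P r c)
    (B : Type) [CommRing B] [IsDomain B] [Algebra R B] [Algebra.FiniteType R B] :
    ∃ (r : ℕ) (c : Fin r → R) (N : ℕ) (l : Fin N → Fin 4)
      (Z : Finset (Lab r (Fin N) × Lab r (Fin N) × Lab r (Fin N))),
      P r c ∧ Distinct Z ∧ IsDomain (ConfRing c l Z) ∧ Sm (ConfRing c l Z) ∧
        Nonempty ((MvPolynomial (Fin N) R ⧸ collIdeal c l Z) ≃ₐ[R] B) := by
  classical
  obtain ⟨n, φ, G, hs, hK, -⟩ := presents_univ (R := R) B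
  -- the ring with the presentation
  let A' := MvPolynomial (Fin n) R ⧸ Ideal.span (G : Set (MvPolynomial (Fin n) R))
  have e : Nonempty (A' ≃ₐ[R] B) := by
    change Nonempty ((MvPolynomial (Fin n) R ⧸ Ideal.span (G : Set (MvPolynomial (Fin n) R))) ≃ₐ[R] B)
    rw [← hK]
    exact ⟨Ideal.quotientKerAlgEquivOfSurjective hs⟩
  obtain ⟨e⟩ := e
  have hdom' : IsDomain A' := e.toMulEquiv.isDomain B
  have hft' : Algebra.FiniteType R A' := Algebra.FiniteType.equiv ‹_› e.symm
  obtain ⟨w₁, hw₁, hSm₁⟩ := hSm.gen A'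
  obtain ⟨p₁, hp₁⟩ := Ideal.Quotient.mk_surjective w₁
  let H' : Finset (MvPolynomial (Fin n) R) := {p₁}
  let F : Finset R := (G ∪ H').biUnion fun g => g.support.image fun m => coeff m g
  obtain ⟨r, c, hF, hinj, hC⟩ := hc A' F
  have hmem : ∀ g ∈ G ∪ H', g ∈ constrRing c (Set.range (X : Fin n → MvPolynomial (Fin n) R)) := by
    intro g hg
    rw [g.as_sum]
    refine Subring.sum_mem _ fun m hm => ?_
    rw [monomial_eq]
    refine Subring.mul_mem _ (hF _ (Finset.mem_biUnion.mpr ⟨g, hg,
      Finset.mem_image_of_mem _ hm⟩) n) ?_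
    rw [Finsupp.prod]
    refine Subring.prod_mem _ fun i _ => Subring.pow_mem _ ?_ _
    exact constr_gen ⟨i, rfl⟩
  have h1 := good_finset (X := Set.range (X : Fin n → MvPolynomial (Fin n) R)) (good_poly c n) (by
    rintro _ ⟨i, rfl⟩
    exact ⟨rfl, i, rfl⟩) (G ∪ H') hmem
  have h2 := good_quot' G (H' : Set (MvPolynomial (Fin n) R)) (h1.mono (by
    rintro x ⟨hx1, hx2⟩
    refine Or.inr ⟨hx1, ?_⟩
    rw [Finset.mem_union]
    exact hx2))
  obtain ⟨σ, _, _, l, Z, a, hE, hH⟩ := h2
  obtain ⟨σ', _, l', a', hE', hinj', hlab⟩ := hE.simple' hinj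
  let f' := Fintype.equivFin σ'
  have hE2 := (hE'.rename f').enlarge
  have h2 : ∀ i : Lab r (Fin (Fintype.card σ')), pts c (l' ∘ f'.symm) (a' ∘ f'.symm) i =
      pts c l' a' (labE r f'.symm i) := by
    intro i
    rcases i with i | i | i <;> rfl
  have hinj2 : Function.Injective (pts c (l' ∘ f'.symm) (a' ∘ f'.symm)) := by
    intro i j hij
    rw [h2, h2] at hij
    have h3 := hinj' hij
    have h4 : Function.Injective (labE r f'.symm) := by
      unfold labE
      exact Function.Injective.sumMap Function.injective_id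
        (Function.Injective.sumMap Function.injective_id f'.symm.injective)
    exact h4 h3
  -- the element `w₁` is the determinant of a triple
  have hH' : ∃ i, pts c (l' ∘ f'.symm) (a' ∘ f'.symm) i = point 0 w₁ := by
    obtain ⟨j, hj⟩ := hH (0, Ideal.Quotient.mk _ p₁) ⟨rfl, p₁, by
      change p₁ ∈ H'
      exact Finset.mem_singleton_self _, rfl⟩
    obtain ⟨j', hj'⟩ := hlab j
    refine ⟨labE r f' j', ?_⟩
    have h5 : pts c (l' ∘ f'.symm) (a' ∘ f'.symm) (labE r f' j') = pts c l' a' j' := by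
      rcases j' with i | i | i
      · rfl
      · rfl
      · change point (l' (f'.symm (f' i))) (a' (f'.symm (f' i))) = point (l' i) (a' i)
        rw [Equiv.symm_apply_apply]
    rw [h5, ← hj', hj, ← hp₁]
  obtain ⟨g, hg⟩ := gen_equiv' hE2
  let w₂ : A' := ∏ t ∈ (vanish c (l' ∘ f'.symm) (a' ∘ f'.symm))ᶜ,
    det3 c (l' ∘ f'.symm) (a' ∘ f'.symm) t
  have hw₂ : w₂ ≠ 0 := by
    rw [Finset.prod_ne_zero_iff]
    intro t ht h3
    exact (Finset.mem_compl.mp ht) (mem_vanish.mpr h3)
  have hdvd : w₁ ∣ w₂ := by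
    obtain ⟨i, hi⟩ := hH'
    have h6 : det3 c (l' ∘ f'.symm) (a' ∘ f'.symm) (i, Sum.inl 1, Sum.inl 2) = w₁ := by
      unfold det3
      rw [hi]
      change Matrix.det ![![w₁, 0, 1], ![0, 1, 0], ![0, 0, 1]] = w₁
      rw [Matrix.det_fin_three]
      simp
    have h7 : (i, Sum.inl 1, Sum.inl 2) ∈ (vanish c (l' ∘ f'.symm) (a' ∘ f'.symm))ᶜ := by
      rw [Finset.mem_compl, mem_vanish, h6]
      exact hw₁
    rw [← h6]
    exact Finset.dvd_prod_of_mem _ h7
  have hdomT : IsDomain (Localization.Away w₂) :=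
    IsLocalization.isDomain_localization (powers_le_nonZeroDivisors_of_noZeroDivisors hw₂)
  obtain ⟨e5, -⟩ := enc_equiv hE2
  exact ⟨r, c, _, _, _, hC, distinct_vanish hinj2, g.symm.toMulEquiv.isDomain _,
    hSm.iso _ _ ⟨g⟩ (sm_dvd hSm hw₂ hdvd hSm₁), ⟨e5.trans e⟩⟩

end Pool.Agent.H876.PL
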