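import Pool.Agent.H876.Res.Exact
import Mathlib.RingTheory.RegularLocalRing.Defs
import Mathlib.RingTheory.EssentialFiniteness
import Mathlib.RingTheory.Valuation.ValuationSubring

/-!
# Local domains essentially of finite type and local uniformization
-/

set_option autoImplicit false

open IsLocalRing

namespace Pool.Agent.H876.Res

/-- The local ring `R`, with the field of fractions `K`, has a local uniformization along the valuation
ring `V` of `K`: there is a finitely generated `R`-subalgebra `A` of `K`, contained in `V`, which is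
regular at the centre `P` of `V`. -/
def UnifAlong (R K : Type) [CommRing R] [Field K] [Algebra R K] (V : ValuationSubring K) : Prop :=
  ∃ A : Subalgebra R K, A.FG ∧ (∀ a : A, (a : K) ∈ V) ∧
    ∃ P : Ideal A, ∃ (_ : P.IsPrime), (∀ a : A, a ∈ P ↔ V.valuation (a : K) < 1) ∧
      IsRegularLocalRing (Localization.AtPrime P)

/-- The valuation ring `V` of `K` is centred on the local ring `R`. -/
def CentredOn (R K : Type) [CommRing R] [IsLocalRing R] [Field K] [Algebra R K]
    (V : ValuationSubring K) : Prop :=
  (∀ r : R, algebraMap R K r ∈ V) ∧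
    ∀ r : R, r ∈ maximalIdeal R ↔ V.valuation (algebraMap R K r) < 1

/-- The local domain `R` admits local uniformization. -/
def AdmitsLU (R : Type) [CommRing R] [IsLocalRing R] : Prop :=
  ∀ (K : Type) [Field K] [Algebra R K] [IsFractionRing R K] (V : ValuationSubring K),
    CentredOn R K V → UnifAlong R K V

section transport

variable {R R' K : Type} [CommRing R] [CommRing R'] [Field K]

/-- The property depends only on the image of `R` in `K`. -/
lemma unifAlong_of_range [Algebra R K] [Algebra R' K]
    (h : ∀ x : R, ∃ y : R', algebraMap R' K y = algebraMap R K x)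
    (h' : ∀ y : R', ∃ x : R, algebraMap R K x = algebraMap R' K y) (V : ValuationSubring K)
    (hu : UnifAlong R K V) : UnifAlong R' K V := by
  obtain ⟨A, ⟨S, hS⟩, hV, P, hP, hPV, hreg⟩ := hu
  let A' : Subalgebra R' K :=
    { A.toSubsemiring with
      algebraMap_mem' := fun y => by
        obtain ⟨x, hx⟩ := h' y
        rw [← hx]
        exact A.algebraMap_mem x }
  have hmem : ∀ z, z ∈ A' ↔ z ∈ A := fun _ => Iff.rfl
  let e : A ≃+* A' :=
    { toFun := fun a => ⟨a.1, a.2⟩
      invFun := fun a => ⟨a.1, a.2⟩
      left_inv := fun _ => rfl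
      right_inv := fun _ => rfl
      map_mul' := fun _ _ => rfl
      map_add' := fun _ _ => rfl }
  refine ⟨A', ⟨S, ?_⟩, fun a => hV (e.symm a), P.comap e.symm.toRingHom, inferInstance, ?_, ?_⟩
  · apply le_antisymm
    · rw [Algebra.adjoin_le_iff]
      intro s hs
      rw [SetLike.mem_coe, hmem, ← hS]
      exact Algebra.subset_adjoin hs
    · intro z hz
      rw [hmem, ← hS] at hz
      induction hz using Algebra.adjoin_induction with
      | mem x hx => exact Algebra.subset_adjoin hx
      | algebraMap x =>
        obtain ⟨y, hy⟩ := h x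
        rw [← hy]
        exact Subalgebra.algebraMap_mem _ y
      | add x y _ _ h1 h2 => exact Subalgebra.add_mem _ h1 h2
      | mul x y _ _ h1 h2 => exact Subalgebra.mul_mem _ h1 h2
  · intro a
    exact hPV (e.symm a)
  · have := hreg
    refine IsRegularLocalRing.of_ringEquiv (R := Localization.AtPrime P)
      (IsLocalization.ringEquivOfRingEquiv (M := P.primeCompl)
        (T := (P.comap e.symm.toRingHom).primeCompl) _ _ e ?_)
    ext z
    constructor
    · rintro ⟨y, hy, rfl⟩
      exact hy
    · intro hz
      exact ⟨e.symm z, hz, rfl⟩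

/-- Local uniformization is invariant under isomorphisms. -/
lemma admitsLU_of_equiv [IsLocalRing R] [IsLocalRing R'] (e : R ≃+* R') (h : AdmitsLU R) :
    AdmitsLU R' := by
  intro K _ _ _ V hV
  let _ : Algebra R K := ((algebraMap R' K).comp e.toRingHom).toAlgebra
  have hmap : ∀ x, algebraMap R K x = algebraMap R' K (e x) := fun _ => rfl
  have hfr : IsFractionRing R K := by
    have h1 := IsLocalization.isLocalization_of_base_ringEquiv (nonZeroDivisors R') K e.symm
    have h2 : (nonZeroDivisors R').map e.symm = nonZeroDivisors R :=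
      MulEquivClass.map_nonZeroDivisors e.symm
    rw [h2] at h1
    exact h1
  refine unifAlong_of_range (R := R) (R' := R') (K := K) (fun x => ⟨e x, rfl⟩)
    (fun y => ⟨e.symm y, by rw [hmap, RingEquiv.apply_symm_apply]⟩) V (h K V ⟨?_, ?_⟩)
  · intro r
    exact hV.1 (e r)
  · intro r
    rw [hmap, ← hV.2, mem_maximalIdeal, mem_maximalIdeal, mem_nonunits_iff, mem_nonunits_iff,
      MulEquiv.isUnit_map]

end transport

/-- A local domain essentially of finite type is the localization at a prime ideal of a domain of finite
type. -/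
lemma exists_localization (O R : Type) [CommRing O] [CommRing R] [IsDomain R] [IsLocalRing R]
    [Algebra O R] [Algebra.EssFiniteType O R] :
    ∃ (B : Type) (_ : CommRing B) (_ : IsDomain B) (_ : Algebra O B),
      Algebra.FiniteType O B ∧ ∀ (Q : Type) [CommRing Q] [Algebra O Q], Nonempty (Q ≃ₐ[O] B) →
        ∃ (p : Ideal Q) (_ : p.IsPrime), Nonempty (R ≃ₐ[O] Localization.AtPrime p) := by
  let B := Algebra.EssFiniteType.subalgebra O R
  refine ⟨B, inferInstance, inferInstance, inferInstance, inferInstance, ?_⟩
  rintro Q _ _ ⟨e⟩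
  let M := Algebra.EssFiniteType.submonoid O R
  let P : Ideal B := (maximalIdeal R).comap (algebraMap B R)
  have hM : M = P.primeCompl := by
    ext b
    change IsUnit (algebraMap B R b) ↔ b ∉ P
    rw [Ideal.mem_comap, mem_maximalIdeal, mem_nonunits_iff, not_not]
  have hloc : IsLocalization P.primeCompl R := by
    rw [← hM]
    exact Algebra.EssFiniteType.isLocalization O R
  let p : Ideal Q := P.comap e.toRingHom
  have hp : p.IsPrime := inferInstance
  refine ⟨p, hp, ⟨?_⟩⟩
  refine (IsLocalization.algEquivOfAlgEquiv (A := O) (M := p.primeCompl) (T := P.primeCompl)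
    (Localization.AtPrime p) R e ?_).symm
  ext z
  constructor
  · rintro ⟨y, hy, rfl⟩
    exact hy
  · intro hz
    refine ⟨e.symm z, ?_, e.apply_symm_apply z⟩
    change ¬ (e (e.symm z)) ∈ P
    rw [e.apply_symm_apply]
    exact hz

end Pool.Agent.H876.Res
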