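import Pool.Agent.H876.Res.Atlas
import Pool.Agent.H876.Res.Coord2

/-!
# Resolution of singularities and closures of spaces of configurations
-/

set_option autoImplicit false

open AlgebraicGeometry CategoryTheory Limits MvPolynomial
open Pool.Agent.H968R2.Quad Pool.Agent.N98.PJ Pool.Agent.H876.PL

namespace Pool.Agent.H876.Res

/-- There are an integral scheme `Y` and a proper birational morphism `π : Y ⟶ X` such that `Y` has the
property `Rg`. -/
def HasRes {O : Type} [CommRing O]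
    (Rg : ∀ (Y : Scheme.{0}), (Y ⟶ Spec (CommRingCat.of O)) → Prop) {X : Scheme.{0}}
    (f : X ⟶ Spec (CommRingCat.of O)) : Prop :=
  ∃ (Y : Scheme.{0}) (π : Y ⟶ X), IsIntegral Y ∧ IsProper π ∧ Rg Y (π ≫ f) ∧
    ∃ U : X.Opens, U ≠ ⊥ ∧ IsIso (π ∣_ U)

section

variable {O K : Type} [CommRing O] [Field K] [Algebra O K]
  {Rg : ∀ (Y : Scheme.{0}), (Y ⟶ Spec (CommRingCat.of O)) → Prop}

lemma opens_ne {X : Scheme.{0}} (U : X.Opens) : U ≠ ⊥ ↔ (U : Set X).Nonempty := by
  rw [Set.nonempty_iff_ne_empty]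
  constructor
  · intro h h2
    exact h (TopologicalSpace.Opens.ext h2)
  · rintro h rfl
    exact h rfl

/-- From the closure to `X`. -/
theorem res_of_closure
    (hRg : ∀ {U Y : Scheme.{0}} (j : U ⟶ Y) [IsOpenImmersion j] (g : Y ⟶ Spec (CommRingCat.of O)),
      Rg Y g → Rg U (j ≫ g))
    {X : Scheme.{0}} (f : X ⟶ Spec (CommRingCat.of O)) [IsIntegral X] [IsSeparated f]
    [LocallyOfFiniteType f] [QuasiCompact f] (hK : IsFunctionField O K f) :
    ∃ H : Finset K, ∀ (I : Type) [Fintype I] (t : I → K), (∀ i, t i ≠ 0) →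
      (∀ h ∈ H, (∃ x : O, h = algebraMap O K x) ∨ ∃ i, h = t i) →
      HasRes Rg (modelMap (boxSpan O t)) → HasRes Rg f := by
  classical
  obtain ⟨D, hfin, hfg⟩ := exists_finite_atlas hK
  choose G hG using hfg
  have := Fintype.ofFinite D.Λ
  refine ⟨Finset.univ.biUnion G, ?_⟩
  intro I _ t ht hH hres
  have hA : ∀ α, D.A α = Algebra.adjoin O (Set.range (t ∘ coordVal t (D.A α))) := by
    intro α
    apply le_antisymm
    · conv_lhs => rw [← hG α]
      rw [Algebra.adjoin_le_iff]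
      intro g hg
      rcases hH g (Finset.mem_biUnion.mpr ⟨α, Finset.mem_univ α, hg⟩) with ⟨x, hx⟩ | ⟨i, hi⟩
      · rw [hx]
        exact Subalgebra.algebraMap_mem _ x
      · have h1 : t i ∈ D.A α := by
          rw [← hi, ← hG α]
          exact Algebra.subset_adjoin hg
        exact Algebra.subset_adjoin ⟨⟨i, h1⟩, hi.symm⟩
    · rw [Algebra.adjoin_le_iff]
      rintro _ ⟨⟨i, hi⟩, rfl⟩
      exact hi
  obtain ⟨V, q, hV, hq, hbir, hcomm⟩ := chow_box D ht hA (boxOf t ht)
  obtain ⟨Y, ρ, hY, hρ, hY2, U, hU, hiso⟩ := hres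
  have hZint := (boxOf (O := O) t ht).int
  let ρ' : Y ⟶ (boxOf (O := O) t ht).Z := ρ
  have hρ' : IsProper ρ' := hρ
  have hbρ : Bir ρ' := Bir.of_iso U ((opens_ne U).mp hU) hiso
  have hbV := hbρ.restrict V hV
  have hVne : Nonempty V.toScheme := ⟨⟨hV.some, hV.some_mem⟩⟩
  have hVint : IsIntegral V.toScheme := isIntegral_of_isOpenImmersion V.ι
  have hb := hbV.comp hbir
  have hpV : IsProper (ρ' ∣_ V) := IsZariskiLocalAtTarget.restrict hρ' V
  have hprop : IsProper (ρ' ∣_ V ≫ q) := inferInstance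
  have hY'ne : Nonempty (ρ' ⁻¹ᵁ V).toScheme := by
    obtain ⟨W, hW, a, b, -⟩ := hbV
    exact ⟨b (Classical.arbitrary W)⟩
  have hY'int : IsIntegral (ρ' ⁻¹ᵁ V).toScheme := isIntegral_of_isOpenImmersion (ρ' ⁻¹ᵁ V).ι
  obtain ⟨U', hU', hiso'⟩ := hb.exists_iso
  refine ⟨(ρ' ⁻¹ᵁ V).toScheme, ρ' ∣_ V ≫ q, hY'int, hprop, ?_, U', (opens_ne U').mpr hU', hiso'⟩
  rw [Category.assoc, hcomm, morphismRestrict_ι_assoc]
  exact hRg (ρ' ⁻¹ᵁ V).ι _ hY2

/-- The coordinates which are zero do not matter. -/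
lemma boxSpan_nonzero {I : Type} [Fintype I] (t : I → K) [Fintype {i // t i ≠ 0}] :
    boxSpan O (fun i : {i // t i ≠ 0} => t i.1) = boxSpan O t := by
  classical
  unfold boxSpan
  apply le_antisymm
  · rw [Submodule.span_le]
    rintro _ ⟨S, rfl⟩
    refine Submodule.subset_span ⟨S.map (Function.Embedding.subtype _), ?_⟩
    change ∏ i ∈ S.map (Function.Embedding.subtype _), t i = _
    rw [Finset.prod_map]
    rfl
  · rw [Submodule.span_le]
    rintro _ ⟨S, rfl⟩
    by_cases h : ∀ i ∈ S, t i ≠ 0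
    · refine Submodule.subset_span ⟨S.subtype fun i => t i ≠ 0, ?_⟩
      change ∏ i ∈ S.subtype fun i => t i ≠ 0, t i = ∏ i ∈ S, t i
      rw [Finset.prod_subtype_of_mem (fun i => t i) h]
    · push Not at h
      obtain ⟨i, hi, h0⟩ := h
      change ∏ i ∈ S, t i ∈ _
      rw [Finset.prod_eq_zero hi h0]
      exact Submodule.zero_mem _

/-- The closure is a projective integral scheme with the function field `K`. -/
theorem closure_props {I : Type} [Fintype I] (t : I → K)
    (hfr : ∀ z : K, ∃ a ∈ Algebra.adjoin O (Set.range t), ∃ b ∈ Algebra.adjoin O (Set.range t),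
      b ≠ 0 ∧ z = a / b) :
    ∃ _ : IsIntegral (model (boxSpan O t)), IsProper (modelMap (boxSpan O t)) ∧
      IsFunctionField O K (modelMap (boxSpan O t)) := by
  classical
  let t' : {i // t i ≠ 0} → K := fun i => t i.1
  have ht' : ∀ i, t' i ≠ 0 := fun i => i.2
  have h1 : boxSpan O t' = boxSpan O t := boxSpan_nonzero t
  have h2 : chA O t' ∅ = Algebra.adjoin O (Set.range t) := by
    rw [chA_empty]
    apply le_antisymm
    · apply Algebra.adjoin_mono
      rintro _ ⟨i, rfl⟩
      exact ⟨i.1, rfl⟩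
    · rw [Algebra.adjoin_le_iff]
      rintro _ ⟨i, rfl⟩
      by_cases h : t i = 0
      · rw [h]
        exact Subalgebra.zero_mem _
      · exact Algebra.subset_adjoin ⟨⟨i, h⟩, rfl⟩
  rw [← h1]
  refine ⟨(boxOf (O := O) t' ht').int, (boxOf (O := O) t' ht').pr, ?_⟩
  have hint := (boxOf (O := O) t' ht').int
  have hoi := (boxOf (O := O) t' ht').oi ∅
  exact functionField_of_chart (Z := (boxOf (O := O) t' ht').Z) (chA O t' ∅)
    (by rw [h2]; exact hfr) ((boxOf (O := O) t' ht').c ∅) ((boxOf (O := O) t' ht').hg ∅)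

/-- The elements of the function field in terms of the coordinates. -/
lemma conf_frac_adjoin {R : Type} [CommRing R] [Algebra R K] {r N : ℕ} (c : Fin r → R)
    (l : Fin N → Fin 4) (Z : Finset (Lab r (Fin N) × Lab r (Fin N) × Lab r (Fin N)))
    (ev : ConfRing c l Z →ₐ[R] K)
    (hev : ∀ z : K, ∃ a b, ev b ≠ 0 ∧ z = ev a / ev b) (z : K) :
    ∃ a ∈ Algebra.adjoin R (Set.range fun i => ev (xcoord c l Z i)),
      ∃ b ∈ Algebra.adjoin R (Set.range fun i => ev (xcoord c l Z i)), b ≠ 0 ∧ z = a / b := by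
  let t : Fin N → K := fun i => ev (xcoord c l Z i)
  let Q := MvPolynomial (Fin N) R ⧸ collIdeal c l Z
  have key : ∀ p : MvPolynomial (Fin N) R,
      ev (algebraMap Q (Localization.Away (otherDets c l Z)) (Ideal.Quotient.mk _ p)) =
        aeval t p := by
    intro p
    let ψ : MvPolynomial (Fin N) R →ₐ[R] K := ev.comp
      ((IsScalarTower.toAlgHom R Q (Localization.Away (otherDets c l Z))).comp
        (Ideal.Quotient.mkₐ R (collIdeal c l Z)))
    have h1 : ψ = aeval t := by
      apply MvPolynomial.algHom_ext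
      intro i
      rw [aeval_X]
      rfl
    exact congrArg (fun F => F p) h1
  have key2 : ∀ a : ConfRing c l Z, ∃ x ∈ Algebra.adjoin R (Set.range t),
      ∃ y ∈ Algebra.adjoin R (Set.range t), y ≠ 0 ∧ ev a = x / y := by
    intro a
    obtain ⟨⟨q, s⟩, hs⟩ := IsLocalization.surj (Submonoid.powers (otherDets c l Z))
      (S := Localization.Away (otherDets c l Z)) a
    obtain ⟨p, rfl⟩ := Ideal.Quotient.mk_surjective q
    obtain ⟨w, hw⟩ := Ideal.Quotient.mk_surjective s.1
    let u : ConfRing c l Z := algebraMap Q (Localization.Away (otherDets c l Z)) s.1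
    have hu : IsUnit u := IsLocalization.map_units (Localization.Away (otherDets c l Z)) s
    have h0 : ev u ≠ 0 := (hu.map ev).ne_zero
    have h2 : ev (a * u) = _ := congrArg ev hs
    have h3 : ev (a * u) = ev a * ev u := map_mul _ _ _
    have h4 : ev u = aeval t w := by
      change ev (algebraMap Q (Localization.Away (otherDets c l Z)) s.1) = aeval t w
      rw [← hw]
      exact key w
    refine ⟨aeval t p, ?_, aeval t w, ?_, ?_, ?_⟩
    · rw [Algebra.adjoin_range_eq_range_aeval]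
      exact ⟨p, rfl⟩
    · rw [Algebra.adjoin_range_eq_range_aeval]
      exact ⟨w, rfl⟩
    · rw [← h4]
      exact h0
    · rw [← h4, eq_div_iff h0, ← h3, ← key p]
      exact h2
  obtain ⟨a, b, hb, rfl⟩ := hev z
  obtain ⟨x, hx, y, hy, hy0, h1⟩ := key2 a
  obtain ⟨x', hx', y', hy', hy0', h1'⟩ := key2 b
  have hx0' : x' ≠ 0 := by
    rintro rfl
    rw [zero_div] at h1'
    exact hb h1'
  refine ⟨x * y', Subalgebra.mul_mem _ hx hy', y * x', Subalgebra.mul_mem _ hy hx',
    mul_ne_zero hy0 hx0', ?_⟩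
  rw [h1, h1']
  field_simp

end

end Pool.Agent.H876.Res
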